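import Pool.Agent.Helper9.TD.Defs
import Pool.Agent.Helper3.FJ.Cpx

/-!
# Typed complexes

Complexes of dimension two whose vertices have types: chambers (type `∅`), panels (type `{s}`) and
residues (type `{s, t}` with `s ≠ t`, `M s t ≠ 0`).
-/

set_option autoImplicit false

namespace Pool.Agent.Helper9.TD

open Pool.Agent.Helper3.FJ

section

variable {S V : Type}

/-- The chamber system of a typed complex: two chambers which are adjacent to the same panel of
type `s`. -/
def Pn (X : Cpx V) (τ : V → Finset S) (s : S) (c d : {v : V // τ v = ∅}) : Prop :=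
  ∃ p, τ p = {s} ∧ X.adj c.1 p ∧ X.adj d.1 p

/-- Typed complexes. -/
structure TK (M : CoxeterMatrix S) (X : Cpx V) (τ : V → Finset S) : Prop where
  two : ∀ v, (τ v).card ≤ 2
  sph : ∀ v, ∀ s ∈ τ v, ∀ t ∈ τ v, M s t ≠ 0
  sub : ∀ u v, X.adj u v → τ u ⊂ τ v ∨ τ v ⊂ τ u
  /-- chambers below a vertex -/
  ch : ∀ v, τ v ≠ ∅ → ∃ c, τ c = ∅ ∧ X.adj c v
  /-- each chamber has a panel of each type and a residue of each spherical type of rank two -/
  up : ∀ c (J : Finset S), τ c = ∅ → J.Nonempty → J.card ≤ 2 →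
    (∀ s ∈ J, ∀ t ∈ J, M s t ≠ 0) → ∃ v, X.adj c v ∧ τ v = J
  /-- there is at most one vertex of each type above a vertex -/
  un : ∀ u v v', X.adj u v → X.adj u v' → τ u ⊂ τ v → τ v = τ v' → v = v'
  tri : ∀ u v w, X.adj u v → X.adj v w → τ u ⊂ τ v → τ v ⊂ τ w → X.tri u v w
  flag : ∀ c p r, τ c = ∅ → X.adj c p → X.adj c r → τ p ⊂ τ r → X.tri c p r
  /-- the links of the residues have no short circuits -/
  gir : Gir M (Pn X τ)

/-- Actions on typed complexes which preserve the types and are free on the chambers. -/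
structure ActsT (G : Type) [Group G] [MulAction G V] (X : Cpx V) (τ : V → Finset S) : Prop where
  acts : X.Acts G
  inv : ∀ (g : G) v, τ (g • v) = τ v
  free : ∀ (g : G) c, τ c = ∅ → g • c = c → g = 1

end

end Pool.Agent.Helper9.TD
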