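import Mathlib

/-!
# Chamber systems

Definitions for the free edge theorem for quotients of chamber systems of dimension two. A chamber
system is a type `C` of chambers with an equivalence relation `A s` (to lie in the same panel of
type `s`) for each type `s`.
-/

set_option autoImplicit false

namespace Pool.Agent.Helper9.TD

/-! ### Chamber systems -/

section

variable {S C : Type}

/-- Alternating galleries without stuttering: `Al A s t n c d` means that there is a gallery
`c = c_0, c_1, ..., c_n = d` with `A s c_0 c_1`, `A t c_1 c_2`, `A s c_2 c_3` and so on, and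
`c_i ≠ c_(i+1)`. -/
inductive Al (A : S → C → C → Prop) : S → S → ℕ → C → C → Prop
  | nil (s t : S) (c : C) : Al A s t 0 c c
  | cons {s t : S} {n : ℕ} {c d e : C} : A s c d → c ≠ d → Al A t s n d e → Al A s t (n + 1) c e

/-- The types `s, t, s, t, ...`. -/
def tp (s t : S) : ℕ → S
  | 0 => s
  | n + 1 => tp t s n

/-- (G): there are no short closed alternating galleries (no condition if `M s t = 0`). -/
def Gir (M : CoxeterMatrix S) (A : S → C → C → Prop) : Prop :=
  ∀ s t n c, s ≠ t → 0 < n → Al A s t n c c → 2 * M s t ≤ n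

/-- (P): alternating galleries of length `M s t` can be swapped. -/
def Swp (M : CoxeterMatrix S) (A : S → C → C → Prop) : Prop :=
  ∀ s t c d, s ≠ t → M s t ≠ 0 → Al A s t (M s t) c d → Al A t s (M s t) c d

/-- The chamber system is simply connected modulo the residues of rank two with `M s t ≠ 0`: each
covering `D` which is trivial over these residues is trivial over the components. -/
def SCh (M : CoxeterMatrix S) (A : S → C → C → Prop) : Prop :=
  ∀ (D : Type) (π : D → C) (B : S → D → D → Prop), (∀ s, Equivalence (B s)) →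
    (∀ s x y, B s x y → A s (π x) (π y)) →
    (∀ s x c, A s (π x) c → ∃ y, π y = c ∧ B s x y) →
    (∀ s x y, B s x y → π x = π y → x = y) →
    (∀ s t, s ≠ t → M s t ≠ 0 → ∀ x y,
      Relation.ReflTransGen (fun a b => B s a b ∨ B t a b) x y → π x = π y → x = y) →
    ∀ x y, Relation.ReflTransGen (fun a b => ∃ s, B s a b) x y → π x = π y → x = y

end

/-! ### Coxeter groups -/

section

variable {S : Type}

/-- Coxeter matrices of dimension two: there are no spherical subsystems of rank three (but
`1 / m + 1 / n + 1 / p = 1` is allowed). -/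
def TwoDim (M : CoxeterMatrix S) : Prop :=
  ∀ s t u, s ≠ t → t ≠ u → s ≠ u → M s t ≠ 0 → M t u ≠ 0 → M s u ≠ 0 →
    (1 : ℚ) / M s t + 1 / M t u + 1 / M s u ≤ 1

variable (M : CoxeterMatrix S)

/-- The length. -/
noncomputable def len (w : M.Group) : ℕ := M.toCoxeterSystem.length w

/-- Right descents. -/
def Ds (w : M.Group) (s : S) : Prop := len M (w * M.simple s) < len M w

/-- The product `s t s ...` of `n` generators. -/
def ap (s t : S) : ℕ → M.Group
  | 0 => 1
  | n + 1 => M.simple s * ap t s n

/-- The Tits form: `-cos (π / M s t)`, and `-1` if `M s t = 0`. -/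
noncomputable def bf (s t : S) : ℝ := -Real.cos (Real.pi / (M s t : ℝ))

/-- Facts about lengths (row A; `three` is the only one which needs dimension two). -/
structure CoxF : Prop where
  two : ∀ w s t, s ≠ t → Ds M w s → Ds M w t →
    M s t ≠ 0 ∧ ∀ k ≤ M s t, len M (w * ap M s t k) + k = len M w
  asc : ∀ w s t, s ≠ t → ¬ Ds M w s → ¬ Ds M w t →
    ∀ k ≤ M s t, len M (w * ap M s t k) = len M w + k
  three : ∀ w s t u, s ≠ t → t ≠ u → s ≠ u → Ds M w s → Ds M w t → ¬ Ds M w u

/-- Facts about the Tits representation (row A): `lam w s` is the sum of the coefficients of the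
root `w α_s`, and `ph w` is the sum of the coefficients of `Λ - w Λ`, where `Λ` is a vector with
`s Λ = Λ - α_s` for all `s`. -/
structure HtF (lam : M.Group → S → ℝ) (ph : M.Group → ℝ) : Prop where
  lam_mul : ∀ w s t, lam (w * M.simple s) t = lam w t - 2 * bf M s t * lam w s
  ph_mul : ∀ w s, ph (w * M.simple s) = ph w + lam w s
  pos : ∀ w s, 0 < lam w s ↔ ¬ Ds M w s
  neg : ∀ w s, lam w s < 0 ↔ Ds M w s
  kap : ∀ w s t u, s ≠ t → t ≠ u → s ≠ u → M s t ≠ 0 → M s u ≠ 0 →
    ¬ (lam w t - bf M s t * lam w s ≤ 0 ∧ lam w u - bf M s u * lam w s ≤ 0)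

end

/-! ### The free edge theorem -/

section

variable {S C : Type} (M : CoxeterMatrix S) (A : S → C → C → Prop)

/-- (wL): projections to the Coxeter group. -/
def WL (w : C → M.Group) : Prop :=
  ∀ s c d, A s c d → c ≠ d → w d = w c * M.simple s ∨ (w d = w c ∧ Ds M (w c) s)

/-- Fixed panels: `F s c` means that the panel of type `s` of the chamber `c` is fixed. Two fixed
panels are not joined by an alternating chain of fewer than `M s t` chambers. -/
structure FixF (F : S → C → Prop) : Prop where
  congr : ∀ s c d, A s c d → F s c → F s d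
  far : ∀ s t n c d, s ≠ t → M s t ≠ 0 → Al A s t n c d → F t c → F (tp s t n) d → M s t ≤ n + 1

/-- (FE): each finite nonempty set `K` of kites (a kite is a chamber `c` with a residue
`{s, t}`, `M s t ≠ 0`) has a free edge. In the first case the edge from `c` to its panel of type `s`
lies in no other kite of `K`, in the second one this holds for the edge from the panel of type `s`
of `c` to the residue. -/
def FE (F : S → C → Prop) : Prop :=
  ∀ K : Set (C × S × S), K.Finite → K.Nonempty → (∀ c s t, (c, s, t) ∈ K → (c, t, s) ∈ K) →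
    (∀ c s t, (c, s, t) ∈ K → s ≠ t ∧ M s t ≠ 0) →
    ∃ c s t, (c, s, t) ∈ K ∧ ((∀ u, (c, s, u) ∈ K → u = t) ∨
      (¬ F s c ∧ ∀ d, A s c d → (d, s, t) ∈ K → d = c))

end

end Pool.Agent.Helper9.TD
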