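import Pool.Agent.Helper9.TD.Cpl2

/-!
# Free completion of chamber systems: the theorem
-/

set_option autoImplicit false

namespace Pool.Agent.Helper9.TD.Cpl

open Pool.Agent.Helper9.TD

variable {S C : Type} {M : CoxeterMatrix S} {rep : S → C → C}

/-- A gallery in the union of a chain lies in a member. -/
theorem gal_union {F : Set (Set (Ix S C))} (hF : IsChain (· ⊆ ·) F) (hne : F.Nonempty)
    {s t : S} {n : ℕ} {c d : Ch S C} (h : Al (AV M rep (⋃₀ F)) s t n c d) :
    ∃ V ∈ F, Al (AV M rep V) s t n c d := by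
  have hm : ∀ c : Ch S C, mem M (⋃₀ F) c → ∃ V ∈ F, mem M V c := by
    intro c hc
    rcases c with c | ⟨i, j⟩
    · obtain ⟨V, hV⟩ := hne
      exact ⟨V, hV, trivial⟩
    · obtain ⟨⟨V, hV, hi⟩, hj⟩ := hc
      exact ⟨V, hV, hi, hj⟩
  have hd : ∀ V ∈ F, ∀ V' ∈ F, ∃ U ∈ F, V ⊆ U ∧ V' ⊆ U := by
    intro V hV V' hV'
    rcases hF.total hV hV' with h1 | h1
    · exact ⟨V', hV', h1, subset_rfl⟩
    · exact ⟨V, hV, subset_rfl, h1⟩
  induction h with
  | nil s t c =>
    obtain ⟨V, hV⟩ := hne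
    exact ⟨V, hV, Al.nil _ _ _⟩
  | cons h1 h2 _ ih =>
    obtain ⟨V, hV, h3⟩ := ih
    obtain ⟨V1, hV1, h4⟩ := hm _ h1.2.1
    obtain ⟨V2, hV2, h5⟩ := hm _ h1.2.2
    obtain ⟨U, hU, h6, h7⟩ := hd V hV V1 hV1
    obtain ⟨U', hU', h8, h9⟩ := hd U hU V2 hV2
    refine ⟨U', hU', Al.cons ⟨h1.1, mem_mono (h7.trans h8) h4, mem_mono h9 h5⟩ h2
      (h3.mono (AV.mono (h6.trans h8)))⟩

/-- Galleries of old chambers. -/
theorem gal_old {A : S → C → C → Prop} (hrep : ∀ s c d, A s c d ↔ rep s c = rep s d)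
    {s t : S} {n : ℕ} {c d : Ch S C} (h : Al (AV M rep ∅) s t n c d) :
    ∀ c₀, c = Sum.inl c₀ → ∃ d₀, d = Sum.inl d₀ ∧ Al A s t n c₀ d₀ := by
  induction h with
  | nil s t c => exact fun c₀ h => ⟨c₀, h, Al.nil _ _ _⟩
  | @cons s t n c d e h1 h2 _ ih =>
    rintro c₀ rfl
    rcases d with d₀ | ⟨i, j⟩
    · obtain ⟨e₀, h3, h4⟩ := ih d₀ rfl
      refine ⟨e₀, h3, Al.cons ?_ ?_ h4⟩
      · rw [hrep]
        have := h1.1
        simpa [pan] using this
      · rintro rfl
        exact h2 rfl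
    · exact h1.2.2.1.elim

/-- The smallest admissible set. -/
theorem fam_empty {A : S → C → C → Prop} (hrep : ∀ s c d, A s c d ↔ rep s c = rep s d)
    (hG : Gir M A) : Fam M rep ∅ := by
  refine ⟨fun i hi => hi.elim, fun i hi => hi.elim, fun i hi => hi.elim, fun i hi => hi.elim, ?_⟩
  intro s t n c hst hn hc
  rcases c with c₀ | ⟨i, j⟩
  · obtain ⟨d₀, h1, h2⟩ := gal_old hrep hc c₀ rfl
    obtain rfl := Sum.inl.inj h1
    exact hG s t n c₀ hst hn h2
  · obtain ⟨n, rfl⟩ : ∃ k, n = k + 1 := ⟨n - 1, by omega⟩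
    obtain ⟨d, h1, -, -⟩ := hc.first
    exact h1.2.1.1.elim

/-- Galleries of the chamber system on the chambers in `V`. -/
theorem gal_val {V : Set (Ix S C)} {s t : S} {n : ℕ} {c d : {c : Ch S C // mem M V c}}
    (h : Al (fun y (c d : {c : Ch S C // mem M V c}) => pan M rep y c.1 = pan M rep y d.1)
      s t n c d) : Al (AV M rep V) s t n c.1 d.1 := by
  induction h with
  | nil s t c => exact Al.nil _ _ _
  | @cons s t n c d e h1 h2 _ ih =>
    exact Al.cons ⟨h1, c.2, d.2⟩ (fun h => h2 (Subtype.ext h)) ih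

theorem gal_lift {V : Set (Ix S C)} {s t : S} {n : ℕ} {c d : Ch S C}
    (h : Al (AV M rep V) s t n c d) (hc : mem M V c) (hd : mem M V d) :
    Al (fun y (c d : {c : Ch S C // mem M V c}) => pan M rep y c.1 = pan M rep y d.1)
      s t n ⟨c, hc⟩ ⟨d, hd⟩ := by
  induction h with
  | nil s t c => exact Al.nil _ _ _
  | @cons s t n c d e h1 h2 _ ih =>
    exact Al.cons (d := ⟨d, h1.2.2⟩) h1.1 (fun h => h2 (congrArg Subtype.val h)) (ih _ hd)

end Pool.Agent.Helper9.TD.Cpl

namespace Pool.Agent.Helper9.TD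

open Pool.Agent.Helper9.TD.Cpl

/-- **Free completion** (row B): each chamber system with (G) is contained in one with (G)
and (P). -/
theorem completion {S C : Type} (M : CoxeterMatrix S) (A : S → C → C → Prop)
    (hA : ∀ s, Equivalence (A s)) (hG : Gir M A) :
    ∃ (C' : Type) (A' : S → C' → C' → Prop) (ι : C → C'), Function.Injective ι ∧
      (∀ s, Equivalence (A' s)) ∧ (∀ s c d, A' s (ι c) (ι d) ↔ A s c d) ∧ Gir M A' ∧
        Swp M A' := by
  classical
  obtain ⟨rep, hrep⟩ : ∃ rep : S → C → C, ∀ s c d, A s c d ↔ rep s c = rep s d := by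
    let st : ∀ s, Setoid C := fun s => ⟨A s, hA s⟩
    refine ⟨fun s c => (Quotient.mk (st s) c).out, fun s c d => ⟨fun h => ?_, fun h => ?_⟩⟩
    · have : Quotient.mk (st s) c = Quotient.mk (st s) d := Quotient.sound (s := st s) h
      simp only [this]
    · have h1 : Quotient.mk (st s) c = Quotient.mk (st s) d := by
        rw [← Quotient.out_eq (Quotient.mk (st s) c), ← Quotient.out_eq (Quotient.mk (st s) d)]
        exact congrArg _ h
      exact Quotient.exact h1
  obtain ⟨V, hV⟩ := zorn_subset {V : Set (Ix S C) | Fam M rep V} (by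
    intro F hF hch
    rcases F.eq_empty_or_nonempty with rfl | hne
    · exact ⟨∅, fam_empty hrep hG, fun s hs => hs.elim⟩
    · refine ⟨⋃₀ F, ⟨?_, ?_, ?_, ?_, ?_⟩, fun s hs => Set.subset_sUnion_of_mem hs⟩
      · rintro i ⟨V, hV, hi⟩
        exact (hF hV).ne i hi
      · rintro i ⟨V, hV, hi⟩
        exact (hF hV).m0 i hi
      · rintro i ⟨V, hV, hi⟩ k n h
        exact ⟨V, hV, (hF hV).lo i hi k n h⟩
      · rintro i ⟨V, hV, hi⟩ k n h
        exact ⟨V, hV, (hF hV).hi i hi k n h⟩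
      · intro s t n c hst hn hc
        obtain ⟨V, hV, h⟩ := gal_union hch hne hc
        exact (hF hV).gir s t n c hst hn h)
  have hVF : Fam M rep V := hV.prop
  refine ⟨{c : Ch S C // mem M V c}, fun y c d => pan M rep y c.1 = pan M rep y d.1,
    fun c => ⟨Sum.inl c, trivial⟩, ?_, ?_, ?_, ?_, ?_⟩
  · intro c d h
    exact Sum.inl.inj (congrArg Subtype.val h)
  · intro s
    exact ⟨fun _ => rfl, fun h => h.symm, fun h h' => h.trans h'⟩
  · intro s c d
    rw [hrep]
    simp [pan]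
  · intro s t n c hst hn hc
    exact hVF.gir s t n c.1 hst hn (gal_val hc)
  · intro s t c d hst hm hc
    have hg := gal_val hc
    obtain ⟨i, hi⟩ : ∃ i : Ix S C,
      i = (s, t, pan M rep t c.1, pan M rep (tp s t (M s t)) d.1) := ⟨_, rfl⟩
    by_contra hno
    have hno' : ¬ Al (AV M rep V) t s (M s t) c.1 d.1 := fun h => hno (gal_lift h c.2 d.2)
    by_cases hiV : i ∈ V
    · exact hno' (swap_mem hVF hst hm c.2 d.2 hg hi hiV)
    · have h1 := fam_insert hVF hst hm c.2 d.2 hg hi hiV hno'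
      have h2 : insert i V ⊆ V := hV.2 h1 (Set.subset_insert i V)
      exact hiV (h2 (Set.mem_insert i V))

end Pool.Agent.Helper9.TD
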