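import Pool.Agent.Helper9.TD.Gate
import Pool.Agent.Helper9.TD.Cpl3

/-!
# The projection to the Coxeter group
-/

set_option autoImplicit false

namespace Pool.Agent.Helper9.TD

open Relation

section

variable {S C₀ C : Type} {A₀ : S → C₀ → C₀ → Prop} {A : S → C → C → Prop} {M : CoxeterMatrix S}
  (ι : C₀ → C) (v₀ : C₀)

variable (A M) in
/-- Good words whose end lies in `C₀`. -/
def Dt : Type := {p : List (S × C) × C₀ // Gd A M (ι v₀) p.1 ∧ en (ι v₀) p.1 = ι p.2}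

variable {ι v₀}

variable (A M ι v₀) in
/-- Equivalence of words. -/
def dst : Setoid (Dt A M ι v₀) where
  r p q := E A M (ι v₀) p.1.1 q.1.1 ∧ p.1.2 = q.1.2
  iseqv := ⟨fun _ => ⟨ReflTransGen.refl, rfl⟩, fun h => ⟨E.symm h.1, h.2.symm⟩,
    fun h h' => ⟨ReflTransGen.trans h.1 h'.1, h.2.trans h'.2⟩⟩

variable (A M ι v₀) in
/-- The classes of words. -/
def DD : Type := Quotient (dst A M ι v₀)

/-- The end. -/
def pr (x : DD A M ι v₀) : C₀ := Quotient.lift (s := dst A M ι v₀) (fun p => p.1.2)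
  (fun _ _ h => h.2) x

/-- The type. -/
def wD (x : DD A M ι v₀) : M.Group := Quotient.lift (s := dst A M ι v₀) (fun p => wt M p.1.1)
  (fun _ _ h => (E.inv h.1).2.1) x

/-- The panels. -/
def BD (s : S) (x y : DD A M ι v₀) : Prop :=
  Quotient.lift₂ (s₁ := dst A M ι v₀) (s₂ := dst A M ι v₀)
    (fun p q => ∃ k, G1 A M (ι v₀) s p.1.1 k ∧ G1 A M (ι v₀) s q.1.1 k)
    (fun p q p' q' h h' => by
      apply propext
      constructor
      · rintro ⟨k, h1, h2⟩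
        exact ⟨k, h1.left h.1, h2.left h'.1⟩
      · rintro ⟨k, h1, h2⟩
        exact ⟨k, h1.left (E.symm h.1), h2.left (E.symm h'.1)⟩) x y

/-- The class of a word. -/
def cD (p : Dt A M ι v₀) : DD A M ι v₀ := Quotient.mk (dst A M ι v₀) p

theorem cD_surj (x : DD A M ι v₀) : ∃ p, cD p = x := Quotient.exists_rep x

theorem cD_eq {p q : Dt A M ι v₀} (h : E A M (ι v₀) p.1.1 q.1.1) (h' : p.1.2 = q.1.2) :
    cD p = cD q := Quotient.sound (s := dst A M ι v₀) ⟨h, h'⟩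

theorem pr_cD (p : Dt A M ι v₀) : pr (cD p) = p.1.2 := rfl

theorem wD_cD (p : Dt A M ι v₀) : wD (cD p) = wt M p.1.1 := rfl

theorem BD_cD (s : S) (p q : Dt A M ι v₀) : BD s (cD p) (cD q) ↔
    ∃ k, G1 A M (ι v₀) s p.1.1 k ∧ G1 A M (ι v₀) s q.1.1 k := Iff.rfl

variable (hC : CoxF M) (hA : ∀ s, Equivalence (A s)) (hG : Gir M A) (hP : Swp M A)

include hC hA hG hP

theorem BD_equiv (s : S) : Equivalence (BD (A := A) (M := M) (ι := ι) (v₀ := v₀) s) := by
  refine ⟨fun x => ?_, fun {x y} h => ?_, fun {x y z} h h' => ?_⟩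
  · obtain ⟨p, rfl⟩ := cD_surj x
    obtain ⟨k, hk⟩ := G1.exists hC hP p.2.1 s
    exact ⟨k, hk, hk⟩
  · obtain ⟨p, rfl⟩ := cD_surj x
    obtain ⟨q, rfl⟩ := cD_surj y
    obtain ⟨k, h1, h2⟩ := h
    exact ⟨k, h2, h1⟩
  · obtain ⟨p, rfl⟩ := cD_surj x
    obtain ⟨q, rfl⟩ := cD_surj y
    obtain ⟨r, rfl⟩ := cD_surj z
    obtain ⟨k, h1, h2⟩ := h
    obtain ⟨k', h3, h4⟩ := h'
    exact ⟨k', h1.right (G1.unique hC hA hG q.2.1 h2 h3), h4⟩

omit hP in
theorem BD_res {s t : S} (hst : s ≠ t) (hm : M s t ≠ 0) (hP : Swp M A)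
    {x y : DD A M ι v₀} (h : ReflTransGen (fun a b => BD s a b ∨ BD t a b) x y)
    (hι : Function.Injective ι) (hxy : pr x = pr y) : x = y := by
  have key : ∀ y : DD A M ι v₀, ReflTransGen (fun a b => BD s a b ∨ BD t a b) x y →
      ∀ p q : Dt A M ι v₀, cD p = x → cD q = y →
      ∃ g, G2 A M (ι v₀) s t p.1.1 g ∧ G2 A M (ι v₀) s t q.1.1 g := by
    intro y h
    induction h with
    | refl =>
      intro p q hp hq
      obtain ⟨g, hg⟩ := G2.exists hC hP hst hm p.2.1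
      have h1 : (dst A M ι v₀).r p q := Quotient.exact (s := dst A M ι v₀) (hp.trans hq.symm)
      exact ⟨g, hg, hg.left h1.1⟩
    | @tail y z h1 h2 ih =>
      intro p r hp hr
      obtain ⟨q, hq⟩ := cD_surj y
      obtain ⟨g, h3, h4⟩ := ih p q hp hq
      subst hq
      subst hr
      have h5 : ∃ u, (u = s ∨ u = t) ∧ BD u (cD q) (cD r) := by
        rcases h2 with h2 | h2
        · exact ⟨s, Or.inl rfl, h2⟩
        · exact ⟨t, Or.inr rfl, h2⟩
      obtain ⟨u, hu, k, h6, h7⟩ := h5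
      obtain ⟨g', h8⟩ := G2.exists hC hP hst hm (h6.gd q.2.1)
      have h9 := G2.of_G1 hC hst hm hu q.2.1 h6 h8
      have h10 := G2.of_G1 hC hst hm hu r.2.1 h7 h8
      exact ⟨g, h3, h10.right (G2.unique hC hA hG hP hst hm q.2.1 h9 h4)⟩
  obtain ⟨p, rfl⟩ := cD_surj x
  obtain ⟨q, rfl⟩ := cD_surj y
  obtain ⟨g, h1, h2⟩ := key _ h p q rfl rfl
  rw [pr_cD, pr_cD] at hxy
  exact cD_eq (G2.inj hA hG hst h1 h2 (by rw [p.2.2, q.2.2, hxy])) hxy

/-- The projection on the component of `v₀`. -/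
theorem exists_loc (hι : Function.Injective ι) (hιA : ∀ s c d, A s (ι c) (ι d) ↔ A₀ s c d)
    (hS : SCh M A₀) (v₀ : C₀) : ∃ w : C₀ → M.Group, ∀ s c d,
      ReflTransGen (fun a b => ∃ s, A₀ s a b) v₀ c → A₀ s c d → c ≠ d →
      w d = w c * M.simple s ∨ (w d = w c ∧ Ds M (w c) s) := by
  classical
  have hE := BD_equiv (ι := ι) (v₀ := v₀) hC hA hG hP
  have hadj : ∀ s (x y : DD A M ι v₀), BD s x y → A₀ s (pr x) (pr y) := by
    intro s x y h
    obtain ⟨p, rfl⟩ := cD_surj x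
    obtain ⟨q, rfl⟩ := cD_surj y
    obtain ⟨k, h1, h2⟩ := h
    rw [← hιA, pr_cD, pr_cD, ← p.2.2, ← q.2.2]
    exact (hA s).trans (h1.adj hA p.2.1) ((hA s).symm (h2.adj hA q.2.1))
  have hlift : ∀ s (x : DD A M ι v₀) c, A₀ s (pr x) c → ∃ y, pr y = c ∧ BD s x y := by
    intro s x c h
    obtain ⟨p, rfl⟩ := cD_surj x
    obtain ⟨k, hk⟩ := G1.exists hC hP p.2.1 s
    have h1 := hk.adj hA p.2.1
    have h2 : A s (en (ι v₀) k) (ι c) := by
      refine (hA s).trans ((hA s).symm h1) ?_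
      rw [p.2.2, hιA]
      exact h
    by_cases h3 : en (ι v₀) k = ι c
    · refine ⟨cD ⟨(k, c), hk.gd p.2.1, h3⟩, rfl, k, hk, hk.1, Or.inl ReflTransGen.refl⟩
    · exact ⟨cD ⟨((s, ι c) :: k, c), (hk.gd p.2.1).cons h2 h3 hk.1, rfl⟩, rfl, k, hk, hk.1,
        Or.inr ⟨ι c, ReflTransGen.refl⟩⟩
  have huniq := hS (DD A M ι v₀) pr BD hE hadj hlift (by
      intro s x y h hxy
      obtain ⟨p, rfl⟩ := cD_surj x
      obtain ⟨q, rfl⟩ := cD_surj y
      obtain ⟨k, h1, h2⟩ := h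
      rw [pr_cD, pr_cD] at hxy
      exact cD_eq (G1.inj p.2.1 q.2.1 h1 h2 (by rw [p.2.2, q.2.2, hxy])) hxy)
    (fun s t hst hm x y h hxy => BD_res hC hA hG hst hm hP h hι hxy)
  obtain ⟨x₀, hx₀⟩ : ∃ x₀ : DD A M ι v₀, x₀ = cD ⟨([], v₀), gd_nil, rfl⟩ := ⟨_, rfl⟩
  have hex : ∀ c, ReflTransGen (fun a b => ∃ s, A₀ s a b) v₀ c →
      ∃ x : DD A M ι v₀, ReflTransGen (fun a b => ∃ s, BD s a b) x₀ x ∧ pr x = c := by
    intro c h
    induction h with
    | refl => exact ⟨x₀, ReflTransGen.refl, by rw [hx₀]; rfl⟩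
    | tail _ h2 ih =>
      obtain ⟨x, h3, rfl⟩ := ih
      obtain ⟨s, h2⟩ := h2
      obtain ⟨y, h4, h5⟩ := hlift s x _ h2
      exact ⟨y, h3.tail ⟨s, h5⟩, h4⟩
  have hsym : ∀ {x y : DD A M ι v₀}, ReflTransGen (fun a b => ∃ s, BD s a b) x y →
      ReflTransGen (fun a b => ∃ s, BD s a b) y x := by
    intro x y h
    induction h with
    | refl => exact ReflTransGen.refl
    | tail _ h2 ih =>
      obtain ⟨s, h2⟩ := h2
      exact ih.head ⟨s, (hE s).symm h2⟩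
  let w : C₀ → M.Group := fun c =>
    if h : ∃ x : DD A M ι v₀, ReflTransGen (fun a b => ∃ s, BD s a b) x₀ x ∧ pr x = c then
      wD h.choose else 1
  have hw : ∀ x : DD A M ι v₀, ReflTransGen (fun a b => ∃ s, BD s a b) x₀ x →
      w (pr x) = wD x := by
    intro x hx
    have h : ∃ y : DD A M ι v₀, ReflTransGen (fun a b => ∃ s, BD s a b) x₀ y ∧
        pr y = pr x := ⟨x, hx, rfl⟩
    have h1 : w (pr x) = wD h.choose := dif_pos h
    rw [h1, huniq h.choose x ((hsym h.choose_spec.1).trans hx) h.choose_spec.2]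
  refine ⟨w, fun s c d hc hcd hne => ?_⟩
  obtain ⟨x, hx, rfl⟩ := hex c hc
  obtain ⟨y, rfl, hxy⟩ := hlift s x d hcd
  rw [hw x hx, hw y (hx.tail ⟨s, hxy⟩)]
  obtain ⟨p, rfl⟩ := cD_surj x
  obtain ⟨q, rfl⟩ := cD_surj y
  obtain ⟨k, h1, h2⟩ := hxy
  rw [wD_cD, wD_cD]
  rcases h1.2 with h3 | ⟨e, h3⟩ <;> rcases h2.2 with h4 | ⟨f, h4⟩
  · exfalso
    apply hne
    rw [pr_cD, pr_cD]
    apply hι
    rw [← p.2.2, ← q.2.2, (E.inv h3).2.2.1, (E.inv h4).2.2.1]
  · left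
    rw [(E.inv h3).2.1, (E.inv h4).2.1]
    rfl
  · left
    rw [(E.inv h3).2.1, (E.inv h4).2.1]
    exact (mul_mul_self _ _).symm
  · right
    rw [(E.inv h3).2.1, (E.inv h4).2.1]
    exact ⟨rfl, ds_mul h1.1⟩

end

/-- **Row C**: the projection of a simply connected chamber system with (G) to the Coxeter
group. -/
theorem exists_w {S C : Type} {M : CoxeterMatrix S} {A : S → C → C → Prop} (hC : CoxF M)
    (hA : ∀ s, Equivalence (A s)) (hG : Gir M A) (hS : SCh M A) : ∃ w, WL M A w := by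
  classical
  obtain ⟨C', A', ι, hι, hA', hιA, hG', hP'⟩ := completion M A hA hG
  let cs : Setoid C := ⟨fun a b => ReflTransGen (fun a b => ∃ s, A s a b) a b,
    fun _ => ReflTransGen.refl, fun {x y} h => by
      induction h with
      | refl => exact ReflTransGen.refl
      | tail _ h2 ih =>
        obtain ⟨s, h2⟩ := h2
        exact ih.head ⟨s, (hA s).symm h2⟩, fun h h' => h.trans h'⟩
  choose w hw using fun v₀ : C => exists_loc (A₀ := A) hC hA' hG' hP' hι hιA hS v₀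
  refine ⟨fun c => w (Quotient.mk cs c).out c, fun s c d hcd hne => ?_⟩
  have h1 : Quotient.mk cs c = Quotient.mk cs d :=
    Quotient.sound (s := cs) (ReflTransGen.single ⟨s, hcd⟩)
  have h2 : ReflTransGen (fun a b => ∃ s, A s a b) (Quotient.mk cs c).out c :=
    Quotient.exact (s := cs) (Quotient.out_eq _)
  simp only [← h1]
  exact hw _ s c d h2 hcd hne

end Pool.Agent.Helper9.TD
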