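import Pool.Agent.Helper9.TD.Defs

/-!
# Alternating galleries
-/

set_option autoImplicit false

namespace Pool.Agent.Helper9.TD

section

variable {S C : Type}

theorem tp_succ (s t : S) (n : ℕ) : tp s t (n + 1) = tp t s n := rfl

theorem tp_add_two (s t : S) (n : ℕ) : tp s t (n + 2) = tp s t n := rfl

theorem tp_even {s t : S} {n : ℕ} (h : Even n) : tp s t n = s := by
  obtain ⟨k, rfl⟩ := h
  induction k with
  | zero => rfl
  | succ k ih =>
    have : k + 1 + (k + 1) = k + k + 2 := by ring
    rw [this, tp_add_two, ih]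

theorem tp_odd {s t : S} {n : ℕ} (h : ¬ Even n) : tp s t n = t := by
  obtain ⟨k, rfl⟩ : ∃ k, n = k + 1 := ⟨n - 1, by
    have : n ≠ 0 := by
      rintro rfl
      exact h ⟨0, rfl⟩
    omega⟩
  rw [tp_succ]
  exact tp_even (by
    by_contra h1
    exact h (by rw [Nat.even_add_one]; exact h1))

/-- The types at the position `n` and after it. -/
theorem tp_cases (s t : S) (n : ℕ) : (tp s t n = s ∧ tp t s n = t) ∨
    (tp s t n = t ∧ tp t s n = s) := by
  by_cases h : Even n
  · exact Or.inl ⟨tp_even h, tp_even h⟩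
  · exact Or.inr ⟨tp_odd h, tp_odd h⟩

theorem tp_add (s t : S) (n k : ℕ) : tp (tp s t n) (tp t s n) k = tp s t (n + k) := by
  induction n generalizing s t with
  | zero =>
    rw [Nat.zero_add]
    rfl
  | succ n ih =>
    have : n + 1 + k = (n + k) + 1 := by ring
    rw [this, tp_succ, tp_succ, tp_succ, ih]

theorem tp_ne {s t : S} (h : s ≠ t) (n : ℕ) : tp s t n ≠ tp t s n := by
  rcases tp_cases s t n with ⟨h1, h2⟩ | ⟨h1, h2⟩
  · rw [h1, h2]
    exact h
  · rw [h1, h2]
    exact h.symm

variable {A : S → C → C → Prop}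

theorem Al.snoc {s t : S} {n : ℕ} {c d e : C} (h : Al A s t n c d) (h1 : A (tp s t n) d e)
    (h2 : d ≠ e) : Al A s t (n + 1) c e := by
  induction h with
  | nil s t c => exact Al.cons h1 h2 (Al.nil _ _ _)
  | cons h3 h4 _ ih => exact Al.cons h3 h4 (ih h1 h2)

theorem Al.append {s t : S} {n k : ℕ} {c d e : C} (h : Al A s t n c d)
    (h1 : Al A (tp s t n) (tp t s n) k d e) : Al A s t (n + k) c e := by
  induction h with
  | nil s t c =>
    rw [Nat.zero_add]
    exact h1
  | @cons s t n c d e h3 h4 _ ih =>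
    have : n + 1 + k = (n + k) + 1 := by ring
    rw [this]
    exact Al.cons h3 h4 (ih h1)

theorem Al.zero {s t : S} {c d : C} (h : Al A s t 0 c d) : c = d := by
  cases h
  rfl

theorem Al.one {s t : S} {c d : C} (h : A s c d) (h1 : c ≠ d) : Al A s t 1 c d :=
  Al.cons h h1 (Al.nil _ _ _)

theorem Al.first {s t : S} {n : ℕ} {c e : C} (h : Al A s t (n + 1) c e) :
    ∃ d, A s c d ∧ c ≠ d ∧ Al A t s n d e := by
  cases h with
  | cons h1 h2 h3 => exact ⟨_, h1, h2, h3⟩

theorem Al.last {s t : S} {n : ℕ} {c e : C} (h : Al A s t (n + 1) c e) :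
    ∃ d, Al A s t n c d ∧ A (tp s t n) d e ∧ d ≠ e := by
  induction n generalizing s t c with
  | zero =>
    obtain ⟨d, h1, h2, h3⟩ := h.first
    obtain rfl := h3.zero
    exact ⟨c, Al.nil _ _ _, h1, h2⟩
  | succ n ih =>
    obtain ⟨d, h1, h2, h3⟩ := h.first
    obtain ⟨x, h4, h5, h6⟩ := ih h3
    exact ⟨x, Al.cons h1 h2 h4, h5, h6⟩

theorem Al.mono {A' : S → C → C → Prop} (hA : ∀ s c d, A s c d → A' s c d) {s t : S} {n : ℕ}
    {c d : C} (h : Al A s t n c d) : Al A' s t n c d := by
  induction h with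
  | nil s t c => exact Al.nil _ _ _
  | cons h1 h2 _ ih => exact Al.cons (hA _ _ _ h1) h2 ih

section

variable (hsy : ∀ s c d, A s c d → A s d c)

include hsy

/-- Reversed galleries, the types of the reversed gallery end with `s`. -/
theorem Al.rev' {s t : S} {n : ℕ} {c d : C} (h : Al A s t n c d) :
    Al A (tp t s n) (tp s t n) n d c := by
  induction h with
  | nil s t c => exact Al.nil _ _ _
  | @cons s t n c d e h1 h2 _ ih =>
    refine ih.snoc ?_ h2.symm
    rw [tp_add]
    have : tp s t (n + n) = s := tp_even ⟨n, rfl⟩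
    rw [this]
    exact hsy _ _ _ h1

/-- Reversed closed galleries. -/
theorem Al.rev_even {s t : S} {n : ℕ} {c d : C} (hn : Even n) (h : Al A s t n c d) :
    Al A t s n d c := by
  have := h.rev' hsy
  rwa [tp_even hn, tp_even hn] at this

end

/-- Rotation of closed galleries. -/
theorem Al.rot {s t : S} {n : ℕ} {c : C} (hn : Even n) (h0 : 0 < n) (h : Al A s t n c c) :
    ∃ d, A s c d ∧ c ≠ d ∧ Al A t s n d d := by
  obtain ⟨n, rfl⟩ : ∃ k, n = k + 1 := ⟨n - 1, by omega⟩
  obtain ⟨d, h1, h2, h3⟩ := h.first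
  refine ⟨d, h1, h2, h3.snoc ?_ h2⟩
  rw [← tp_succ, tp_even hn]
  exact h1

theorem Al.sub {s t : S} {n : ℕ} (c e : C) {k : ℕ} (hk : k ≤ n) (h : Al A s t n c e) :
    ∃ d, Al A s t k c d ∧ Al A (tp s t k) (tp t s k) (n - k) d e := by
  induction k generalizing s t n c with
  | zero => exact ⟨c, Al.nil _ _ _, h⟩
  | succ k ih =>
    obtain ⟨n, rfl⟩ : ∃ j, n = j + 1 := ⟨n - 1, by omega⟩
    obtain ⟨d, h1, h2, h3⟩ := h.first
    obtain ⟨x, h4, h5⟩ := ih d (by omega) h3
    refine ⟨x, Al.cons h1 h2 h4, ?_⟩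
    rw [Nat.succ_sub_succ_eq_sub]
    exact h5

end

/-! ### Consequences of (G) -/

section

variable {S C : Type} {A : S → C → C → Prop} {M : CoxeterMatrix S}

/-- It is enough to check (G) for galleries of even length. -/
theorem gir_of_even (hsy : ∀ s c d, A s c d → A s d c)
    (htr : ∀ s c d e, A s c d → A s d e → A s c e)
    (h : ∀ s t n c, s ≠ t → 0 < n → Even n → Al A s t n c c → 2 * M s t ≤ n) : Gir M A := by
  have key : ∀ n, ∀ s t c, s ≠ t → ¬ Even n → Al A s t n c c →
      ∃ k < n, 0 < k ∧ Even k ∧ ∃ d, Al A s t k d d ∨ Al A t s k d d := by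
    intro n
    induction n using Nat.strong_induction_on with
    | _ n ih =>
      intro s t c hst hn hc
      obtain ⟨n, rfl⟩ : ∃ k, n = k + 1 := ⟨n - 1, by
        have : n ≠ 0 := by
          rintro rfl
          exact hn ⟨0, rfl⟩
        omega⟩
      have hn' : Even n := by
        by_contra h1
        exact hn (by rw [Nat.even_add_one]; exact h1)
      rcases Nat.eq_zero_or_pos n with rfl | hn0
      · obtain ⟨d, -, h2, h3⟩ := hc.first
        exact (h2 h3.zero.symm).elim
      obtain ⟨n, rfl⟩ : ∃ k, n = k + 1 := ⟨n - 1, by omega⟩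
      obtain ⟨d, h1, h2, h3⟩ := hc.first
      obtain ⟨e, h4, h5, h6⟩ := h3.last
      rw [← tp_succ, tp_even hn'] at h5
      by_cases hde : d = e
      · subst hde
        obtain ⟨k, k1, k2, k3, x, k4⟩ := ih n (by omega) t s d hst.symm
          (by rw [Nat.even_add_one] at hn'; exact hn') h4
        exact ⟨k, by omega, k2, k3, x, k4.symm⟩
      · refine ⟨n + 1, by omega, by omega, hn', d, Or.inr (h4.snoc ?_ (Ne.symm hde))⟩
        rw [← tp_succ, tp_even hn']
        exact htr _ _ _ _ h5 h1
  intro s t n c hst hn hc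
  by_cases he : Even n
  · exact h s t n c hst hn he hc
  · obtain ⟨k, k1, k2, k3, d, k4 | k4⟩ := key n s t c hst he hc
    · exact (h s t k d hst k2 k3 k4).trans k1.le
    · rw [M.symmetric s t]
      exact (h t s k d hst.symm k2 k3 k4).trans k1.le

variable (hsy : ∀ s c d, A s c d → A s d c) (htr : ∀ s c d e, A s c d → A s d e → A s c e)
  (hG : Gir M A)

include hsy htr hG

/-- Two galleries with different first types and the same ends. -/
theorem two_ne {s t : S} (hst : s ≠ t) {a b : ℕ} {e c : C} (h : Al A s t a e c)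
    (h' : Al A t s b e c) : (a = 0 ∧ b = 0) ∨ 2 * M s t ≤ a + b := by
  obtain ⟨N, hN⟩ : ∃ N, N = a + b := ⟨_, rfl⟩
  induction N using Nat.strong_induction_on generalizing a b c with
  | _ N ih =>
    rcases Nat.eq_zero_or_pos a with ha | ha
    · subst ha
      obtain rfl := h.zero
      rcases Nat.eq_zero_or_pos b with hb | hb
      · exact Or.inl ⟨rfl, hb⟩
      · right
        have := hG t s b e hst.symm hb h'
        rw [M.symmetric s t]
        omega
    rcases Nat.eq_zero_or_pos b with hb | hb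
    · subst hb
      obtain rfl := h'.zero
      right
      have := hG s t a e hst ha h
      omega
    obtain ⟨a, rfl⟩ : ∃ k, a = k + 1 := ⟨a - 1, by omega⟩
    obtain ⟨b, rfl⟩ : ∃ k, b = k + 1 := ⟨b - 1, by omega⟩
    obtain ⟨d, h1, h2, h3⟩ := h.last
    obtain ⟨d', h1', h2', h3'⟩ := h'.last
    right
    by_cases hty : tp s t a = tp t s b
    · by_cases hd : d = d'
      · subst hd
        rcases ih (a + b) (by omega) h1 h1' rfl with h4 | h4
        · obtain ⟨rfl, rfl⟩ := h4
          exact (hst hty).elim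
        · omega
      · have h4 : Al A s t (a + 1) e d' := by
          refine h1.snoc ?_ hd
          rw [hty] at h2 ⊢
          exact htr _ _ _ _ h2 (hsy _ _ _ h2')
        rcases ih (a + 1 + b) (by omega) h4 h1' rfl with h5 | h5
        · omega
        · omega
    · have h4 := h'.rev' hsy
      have h5 : tp s t (b + 1) = tp s t (a + 1) ∧ tp t s (b + 1) = tp t s (a + 1) := by
        rw [tp_succ, tp_succ, tp_succ, tp_succ]
        rcases tp_cases s t a with ⟨h6, h7⟩ | ⟨h6, h7⟩ <;>
          rcases tp_cases s t b with ⟨h8, h9⟩ | ⟨h8, h9⟩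
        · exact ⟨by rw [h9, h7], by rw [h8, h6]⟩
        · exact (hty (by rw [h6, h9])).elim
        · exact (hty (by rw [h6, h9])).elim
        · exact ⟨by rw [h9, h7], by rw [h8, h6]⟩
      rw [h5.1, h5.2] at h4
      have h6 := hG s t _ e hst (by omega) (h.append h4)
      omega

/-- Two galleries with the same first type and the same ends. -/
theorem two_eq {s t : S} (hst : s ≠ t) {a b : ℕ} {e c : C} (h : Al A s t a e c)
    (h' : Al A s t b e c) (hab : a ≠ b) : 2 * M s t ≤ a + b := by
  obtain ⟨N, hN⟩ : ∃ N, N = a + b := ⟨_, rfl⟩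
  induction N using Nat.strong_induction_on generalizing a b s t e with
  | _ N ih =>
    rcases Nat.eq_zero_or_pos a with ha | ha
    · subst ha
      obtain rfl := h.zero
      have := hG s t b e hst (by omega) h'
      omega
    rcases Nat.eq_zero_or_pos b with hb | hb
    · subst hb
      obtain rfl := h'.zero
      have := hG s t a e hst ha h
      omega
    obtain ⟨a, rfl⟩ : ∃ k, a = k + 1 := ⟨a - 1, by omega⟩
    obtain ⟨b, rfl⟩ : ∃ k, b = k + 1 := ⟨b - 1, by omega⟩
    obtain ⟨d, h1, h2, h3⟩ := h.first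
    obtain ⟨d', h1', h2', h3'⟩ := h'.first
    by_cases hd : d = d'
    · subst hd
      have := ih (a + b) (by omega) hst.symm h3 h3' (by omega) rfl
      rw [M.symmetric s t]
      omega
    · have h4 : Al A s t (b + 1) d c := Al.cons (htr _ _ _ _ (hsy _ _ _ h1) h1') hd h3'
      rcases two_ne hsy htr hG hst h4 h3 with h5 | h5
      · omega
      · omega

/-- The swap of a gallery from a shorter one between its outer panels. -/
theorem swap_of {s t : S} (hst : s ≠ t) {c d x y : C} {k : ℕ} (hk : k + 2 ≤ M s t)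
    (hp : tp s t k = tp s t (M s t)) (h : Al A s t (M s t) c d) (hx : A t c x ∨ c = x)
    (hy : A (tp s t (M s t)) y d ∨ y = d) (h' : Al A s t k x y) : Al A t s (M s t) c d := by
  by_cases hcx : c = x
  · subst hcx
    exfalso
    by_cases hyd : y = d
    · subst hyd
      have := two_eq hsy htr hG hst h h' (by omega)
      omega
    · have h1 := h'.snoc (by rw [hp]; exact hy.resolve_right hyd) hyd
      have := two_eq hsy htr hG hst h h1 (by omega)
      omega
  · have h1 : Al A t s (k + 1) c y := Al.cons (hx.resolve_right hcx) hcx h'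
    by_cases hyd : y = d
    · subst hyd
      exfalso
      rcases two_ne hsy htr hG hst h h1 with h2 | h2 <;> omega
    · have h2 : Al A t s (k + 1 + 1) c d := by
        refine h1.snoc ?_ hyd
        rw [tp_succ, hp]
        exact hy.resolve_right hyd
      have h3 : k + 1 + 1 = M s t := by
        rcases two_ne hsy htr hG hst h h2 with h3 | h3 <;> omega
      rw [h3] at h2
      exact h2

end

end Pool.Agent.Helper9.TD
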