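import Pool.Agent.Helper9.TD.Al

/-!
# Free completion of chamber systems: adding a path
-/

set_option autoImplicit false

namespace Pool.Agent.Helper9.TD.Cpl

open Pool.Agent.Helper9.TD

/-- Names of panels: the old ones (given by a chamber) and those of the new paths. -/
inductive Pl (S C : Type) : Type
  | old : C → Pl S C
  | nw : S → S → Pl S C → Pl S C → ℕ → Pl S C

/-- Names of the new paths: two types and the two panels which are joined. -/
abbrev Ix (S C : Type) : Type := S × S × Pl S C × Pl S C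

/-- The chambers: old ones, and the chambers of the new paths. -/
abbrev Ch (S C : Type) : Type := C ⊕ (Ix S C × ℕ)

variable {S C : Type}

/-- The panel number `n` of the new path `i`. -/
def nwi (i : Ix S C) (n : ℕ) : Pl S C := Pl.nw i.1 i.2.1 i.2.2.1 i.2.2.2 n

theorem nwi_inj {i i' : Ix S C} {n n' : ℕ} (h : nwi i n = nwi i' n') : i = i' ∧ n = n' := by
  obtain ⟨s, t, b, b'⟩ := i
  obtain ⟨s', t', c, c'⟩ := i'
  simp only [nwi, Pl.nw.injEq] at h
  obtain ⟨h1, h2, h3, h4, h5⟩ := h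
  subst h1 h2 h3 h4 h5
  exact ⟨rfl, rfl⟩

variable (M : CoxeterMatrix S) (rep : S → C → C)

open Classical in
/-- The panels along the new path `i`. -/
noncomputable def pn (i : Ix S C) (j : ℕ) : Pl S C :=
  if j = 0 then i.2.2.1 else if j + 1 = M i.1 i.2.1 then i.2.2.2 else nwi i j

open Classical in
/-- The panel of type `y` of a chamber. -/
noncomputable def pan (y : S) : Ch S C → Pl S C
  | Sum.inl c => Pl.old (rep y c)
  | Sum.inr (i, j) => if y = tp i.2.1 i.1 j then pn M i j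
      else if y = tp i.2.1 i.1 (j + 1) then pn M i (j + 1) else nwi i (M i.1 i.2.1 + j)

/-- The chambers if the paths in `V` have been added. -/
def mem (V : Set (Ix S C)) : Ch S C → Prop
  | Sum.inl _ => True
  | Sum.inr (i, j) => i ∈ V ∧ j + 1 < M i.1 i.2.1

/-- The chamber system if the paths in `V` have been added. -/
def AV (V : Set (Ix S C)) (y : S) (c d : Ch S C) : Prop :=
  pan M rep y c = pan M rep y d ∧ mem M V c ∧ mem M V d

/-- Admissible sets of paths. -/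
structure Fam (V : Set (Ix S C)) : Prop where
  ne : ∀ i ∈ V, i.1 ≠ i.2.1
  m0 : ∀ i ∈ V, M i.1 i.2.1 ≠ 0
  lo : ∀ i ∈ V, ∀ k n, i.2.2.1 = nwi k n → k ∈ V
  hi : ∀ i ∈ V, ∀ k n, i.2.2.2 = nwi k n → k ∈ V
  gir : Gir M (AV M rep V)

variable {M rep}

theorem AV.symm (V : Set (Ix S C)) (y : S) (c d : Ch S C) (h : AV M rep V y c d) :
    AV M rep V y d c := ⟨h.1.symm, h.2.2, h.2.1⟩

theorem AV.trans (V : Set (Ix S C)) (y : S) (c d e : Ch S C) (h : AV M rep V y c d)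
    (h' : AV M rep V y d e) : AV M rep V y c e := ⟨h.1.trans h'.1, h.2.1, h'.2.2⟩

theorem mem_mono {V V' : Set (Ix S C)} (h : V ⊆ V') {c : Ch S C} (hc : mem M V c) :
    mem M V' c := by
  rcases c with c | ⟨i, j⟩
  · trivial
  · exact ⟨h hc.1, hc.2⟩

theorem AV.mono {V V' : Set (Ix S C)} (h : V ⊆ V') (y : S) (c d : Ch S C)
    (h' : AV M rep V y c d) : AV M rep V' y c d :=
  ⟨h'.1, mem_mono h h'.2.1, mem_mono h h'.2.2⟩

theorem mem_insert {V : Set (Ix S C)} {i : Ix S C} {c : Ch S C} (h : mem M (insert i V) c) :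
    mem M V c ∨ ∃ j, c = Sum.inr (i, j) ∧ j + 1 < M i.1 i.2.1 := by
  rcases c with c | ⟨i', j⟩
  · exact Or.inl trivial
  · rcases h.1 with h1 | h1
    · subst h1
      exact Or.inr ⟨j, rfl, h.2⟩
    · exact Or.inl ⟨h1, h.2⟩

section path

variable {i : Ix S C}

theorem pn_zero : pn M i 0 = i.2.2.1 := by simp [pn]

theorem pn_last {j : ℕ} (h0 : j ≠ 0) (h : j + 1 = M i.1 i.2.1) : pn M i j = i.2.2.2 := by
  simp [pn, h0, h]

theorem pn_mid {j : ℕ} (h0 : j ≠ 0) (h : j + 1 ≠ M i.1 i.2.1) : pn M i j = nwi i j := by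
  simp [pn, h0, h]

theorem pan_low (j : ℕ) : pan M rep (tp i.2.1 i.1 j) (Sum.inr (i, j)) = pn M i j := by
  simp [pan]

theorem pan_up (hne : i.1 ≠ i.2.1) (j : ℕ) :
    pan M rep (tp i.1 i.2.1 j) (Sum.inr (i, j)) = pn M i (j + 1) := by
  have h1 : tp i.1 i.2.1 j ≠ tp i.2.1 i.1 j := tp_ne hne j
  simp only [pan, if_neg h1]
  rw [if_pos]
  rfl

theorem pan_other {y : S} (h1 : y ≠ i.1) (h2 : y ≠ i.2.1) (j : ℕ) :
    pan M rep y (Sum.inr (i, j)) = nwi i (M i.1 i.2.1 + j) := by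
  have h3 : y ≠ tp i.2.1 i.1 j := by
    rcases tp_cases i.2.1 i.1 j with ⟨h, -⟩ | ⟨h, -⟩ <;> rw [h] <;> assumption
  have h4 : y ≠ tp i.2.1 i.1 (j + 1) := by
    rcases tp_cases i.2.1 i.1 (j + 1) with ⟨h, -⟩ | ⟨h, -⟩ <;> rw [h] <;> assumption
  simp [pan, h3, h4]

/-- The codes which occur on the path `i`. -/
theorem pan_path (y : S) (j : ℕ) :
    (pan M rep y (Sum.inr (i, j)) = i.2.2.1 ∧ j = 0 ∧ y = i.2.1) ∨
    (pan M rep y (Sum.inr (i, j)) = i.2.2.2 ∧ (j + 1 = M i.1 i.2.1 ∨ j + 2 = M i.1 i.2.1)) ∨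
    ∃ l, pan M rep y (Sum.inr (i, j)) = nwi i l ∧ ((l < M i.1 i.2.1 ∧ (l = j ∨ l = j + 1)) ∨
      (l = M i.1 i.2.1 + j ∧ y ≠ tp i.2.1 i.1 j ∧ y ≠ tp i.2.1 i.1 (j + 1)) ∨
        M i.1 i.2.1 ≤ j + 1) := by
  by_cases h1 : y = tp i.2.1 i.1 j
  · rw [h1, pan_low]
    by_cases h2 : j = 0
    · subst h2
      exact Or.inl ⟨pn_zero, rfl, rfl⟩
    by_cases h3 : j + 1 = M i.1 i.2.1
    · exact Or.inr (Or.inl ⟨pn_last h2 h3, Or.inl h3⟩)
    · refine Or.inr (Or.inr ⟨j, pn_mid h2 h3, ?_⟩)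
      by_cases h4 : j < M i.1 i.2.1
      · exact Or.inl ⟨h4, Or.inl rfl⟩
      · exact Or.inr (Or.inr (by omega))
  by_cases h2 : y = tp i.2.1 i.1 (j + 1)
  · have h3 : pan M rep y (Sum.inr (i, j)) = pn M i (j + 1) := by
      simp only [pan, if_neg h1, if_pos h2]
    rw [h3]
    by_cases h4 : j + 1 + 1 = M i.1 i.2.1
    · exact Or.inr (Or.inl ⟨pn_last (by omega) h4, Or.inr h4⟩)
    · refine Or.inr (Or.inr ⟨j + 1, pn_mid (by omega) h4, ?_⟩)
      by_cases h5 : j + 1 < M i.1 i.2.1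
      · exact Or.inl ⟨h5, Or.inr rfl⟩
      · exact Or.inr (Or.inr (by omega))
  · refine Or.inr (Or.inr ⟨M i.1 i.2.1 + j, ?_, Or.inr (Or.inl ⟨rfl, h1, h2⟩)⟩)
    simp only [pan, if_neg h1, if_neg h2]

end path

/-- The codes of chambers in `V`. -/
theorem code_mem {V : Set (Ix S C)} (hV : Fam M rep V) {c : Ch S C} (hc : mem M V c) {y : S}
    {k : Ix S C} {n : ℕ} (h : pan M rep y c = nwi k n) : k ∈ V := by
  rcases c with c | ⟨i, j⟩
  · simp [pan, nwi] at h
  · rcases pan_path (M := M) (rep := rep) (i := i) y j with ⟨h1, -⟩ | ⟨h1, -⟩ | ⟨l, h1, -⟩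
    · exact hV.lo i hc.1 k n (h1.symm.trans h)
    · exact hV.hi i hc.1 k n (h1.symm.trans h)
    · rw [← (nwi_inj (h1.symm.trans h)).1]
      exact hc.1

/-- Galleries along a path. -/
theorem path_gal {V : Set (Ix S C)} {i : Ix S C} (hi : i ∈ V) (hne : i.1 ≠ i.2.1) (k j : ℕ)
    (h : j + k + 1 < M i.1 i.2.1) :
    Al (AV M rep V) (tp i.1 i.2.1 j) (tp i.2.1 i.1 j) k (Sum.inr (i, j)) (Sum.inr (i, j + k)) := by
  induction k generalizing j with
  | zero => exact Al.nil _ _ _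
  | succ k ih =>
    have h1 := ih (j + 1) (by omega)
    have h2 : j + 1 + k = j + (k + 1) := by ring
    rw [h2] at h1
    refine Al.cons (d := Sum.inr (i, j + 1)) ⟨?_, ⟨hi, by omega⟩, ⟨hi, by omega⟩⟩ ?_ h1
    · rw [pan_up hne]
      exact (pan_low (j + 1)).symm
    · intro h3
      have := congrArg Prod.snd (Sum.inr.inj h3)
      simp at this

/-! ### Adding a path -/

section add

variable {V : Set (Ix S C)} (hV : Fam M rep V) {s t : S} (hst : s ≠ t)
  {c₀ d₀ : Ch S C} (hc₀ : mem M V c₀) (hd₀ : mem M V d₀)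
  {i : Ix S C} (hi : i = (s, t, pan M rep t c₀, pan M rep (tp s t (M s t)) d₀)) (hiV : i ∉ V)

include hV hiV hc₀ hi in
theorem lo_ne (n : ℕ) : i.2.2.1 ≠ nwi i n := by
  intro h
  have e3 : i.2.2.1 = pan M rep t c₀ := by rw [hi]
  exact hiV (code_mem hV hc₀ (e3.symm.trans h))

include hV hiV hd₀ hi in
theorem hi_ne (n : ℕ) : i.2.2.2 ≠ nwi i n := by
  intro h
  have e4 : i.2.2.2 = pan M rep (tp s t (M s t)) d₀ := by rw [hi]
  exact hiV (code_mem hV hd₀ (e4.symm.trans h))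

include hV hiV hc₀ hd₀ hi in
/-- The chambers on the inner panels of the new path. -/
theorem eq_of_nwi {y : S} {c : Ch S C} (hc : mem M (insert i V) c) {l : ℕ}
    (h : pan M rep y c = nwi i l) : ∃ j, c = Sum.inr (i, j) ∧
      ((l < M i.1 i.2.1 ∧ (l = j ∨ l = j + 1)) ∨ l = M i.1 i.2.1 + j) := by
  rcases mem_insert hc with h1 | ⟨j, rfl, h1⟩
  · exact (hiV (code_mem hV h1 h)).elim
  · refine ⟨j, rfl, ?_⟩
    rcases pan_path (M := M) (rep := rep) (i := i) y j with ⟨h2, -⟩ | ⟨h2, -⟩ | ⟨l', h2, h3⟩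
    · exact (lo_ne hV hc₀ hi hiV l (h2.symm.trans h)).elim
    · exact (hi_ne hV hd₀ hi hiV l (h2.symm.trans h)).elim
    · obtain rfl : l' = l := (nwi_inj (h2.symm.trans h)).2
      rcases h3 with h3 | h3 | h3
      · exact Or.inl h3
      · exact Or.inr h3.1
      · omega

include hV hiV hc₀ hd₀ hi in
/-- Galleries which go backwards on the new path. -/
theorem outB {k : ℕ} : ∀ {j : ℕ} {w : Ch S C}, j + 1 < M s t →
    Al (AV M rep (insert i V)) (tp t s j) (tp s t j) k (Sum.inr (i, j)) w →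
    (k ≤ j ∧ w = Sum.inr (i, j - k)) ∨ (j + 1 ≤ k ∧ ∃ y, pan M rep t y = pan M rep t c₀ ∧
      y ≠ Sum.inr (i, 0) ∧ mem M (insert i V) y ∧
        Al (AV M rep (insert i V)) s t (k - (j + 1)) y w) := by
  have e1 : i.1 = s := by rw [hi]
  have e2 : i.2.1 = t := by rw [hi]
  have e3 : i.2.2.1 = pan M rep t c₀ := by rw [hi]
  induction k with
  | zero =>
    intro j w hj h
    exact Or.inl ⟨Nat.zero_le _, h.zero.symm⟩
  | succ k ih =>
    intro j w hj h
    obtain ⟨d, ⟨h1, h2, h3⟩, h4, h5⟩ := h.first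
    have h6 : pan M rep (tp t s j) (Sum.inr (i, j)) = pn M i j := by
      have := pan_low (M := M) (rep := rep) (i := i) j
      rwa [e1, e2] at this
    rw [h6] at h1
    rcases Nat.eq_zero_or_pos j with rfl | hj0
    · rw [pn_zero, e3] at h1
      exact Or.inr ⟨by omega, d, h1.symm, h4.symm, h3, h5⟩
    · obtain ⟨j, rfl⟩ : ∃ l, j = l + 1 := ⟨j - 1, by omega⟩
      rw [pn_mid (by omega) (by rw [e1, e2]; omega)] at h1
      obtain ⟨j', rfl, h7⟩ := eq_of_nwi hV hc₀ hd₀ hi hiV h3 h1.symm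
      rw [e1, e2] at h7
      have h8 : j' = j := by
        rcases h7 with ⟨-, h7 | h7⟩ | h7
        · exact (h4 (by rw [h7])).elim
        · omega
        · omega
      subst h8
      rcases ih (j := j') (by omega) h5 with ⟨h9, h10⟩ | ⟨h9, y, h10, h11, h12, h13⟩
      · refine Or.inl ⟨by omega, ?_⟩
        rw [h10, Nat.add_sub_add_right]
      · refine Or.inr ⟨by omega, y, h10, h11, h12, ?_⟩
        rw [Nat.add_sub_add_right]
        exact h13

include hV hiV hc₀ hd₀ hi hst in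
/-- Galleries which go forwards on the new path. -/
theorem outF {k : ℕ} : ∀ {j : ℕ} {w : Ch S C}, j + 1 < M s t →
    Al (AV M rep (insert i V)) (tp s t j) (tp t s j) k (Sum.inr (i, j)) w →
    mem M V w → M s t ≤ k + j + 1 := by
  have e1 : i.1 = s := by rw [hi]
  have e2 : i.2.1 = t := by rw [hi]
  induction k with
  | zero =>
    intro j w hj h hw
    obtain rfl := h.zero
    exact (hiV hw.1).elim
  | succ k ih =>
    intro j w hj h hw
    obtain ⟨d, ⟨h1, h2, h3⟩, h4, h5⟩ := h.first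
    have h6 : pan M rep (tp s t j) (Sum.inr (i, j)) = pn M i (j + 1) := by
      have := pan_up (M := M) (rep := rep) (i := i) (by rw [e1, e2]; exact hst) j
      rwa [e1, e2] at this
    rw [h6] at h1
    by_cases hl : j + 2 = M s t
    · omega
    · rw [pn_mid (by omega) (by rw [e1, e2]; omega)] at h1
      obtain ⟨j', rfl, h7⟩ := eq_of_nwi hV hc₀ hd₀ hi hiV h3 h1.symm
      rw [e1, e2] at h7
      have h8 : j' = j + 1 := by
        rcases h7 with ⟨-, h7 | h7⟩ | h7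
        · omega
        · exact (h4 (by rw [show j' = j by omega])).elim
        · omega
      subst h8
      have := ih (j := j + 1) (by omega) h5 hw
      omega

/-- A gallery in the larger chamber system lies in the smaller one or contains a new chamber. -/
theorem decomp {x y : S} {k : ℕ} {c d : Ch S C} (h : Al (AV M rep (insert i V)) x y k c d) :
    Al (AV M rep V) x y k c d ∨ ∃ k1 k2 j, k1 + k2 = k ∧ j + 1 < M i.1 i.2.1 ∧
      Al (AV M rep (insert i V)) x y k1 c (Sum.inr (i, j)) ∧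
      Al (AV M rep (insert i V)) (tp x y k1) (tp y x k1) k2 (Sum.inr (i, j)) d := by
  induction h with
  | nil s t c => exact Or.inl (Al.nil _ _ _)
  | @cons x y k c d e h1 h2 h3 ih =>
    rcases mem_insert h1.2.1 with h4 | ⟨j, rfl, h4⟩
    · rcases mem_insert h1.2.2 with h5 | ⟨j, rfl, h5⟩
      · rcases ih with h6 | ⟨k1, k2, j, h6, h7, h8, h9⟩
        · exact Or.inl (Al.cons ⟨h1.1, h4, h5⟩ h2 h6)
        · exact Or.inr ⟨k1 + 1, k2, j, by omega, h7, Al.cons h1 h2 h8, h9⟩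
      · exact Or.inr ⟨1, k, j, by omega, h5, Al.one h1 h2, h3⟩
    · exact Or.inr ⟨0, k + 1, j, by omega, h4, Al.nil _ _ _, Al.cons h1 h2 h3⟩

include hV hiV hc₀ hd₀ hi hst in
/-- Short galleries between old chambers are old. -/
theorem short {x y : S} {k : ℕ} {c d : Ch S C} (h : Al (AV M rep (insert i V)) x y k c d)
    (hxy : (x = s ∧ y = t) ∨ (x = t ∧ y = s)) (hc : mem M V c) (hd : mem M V d)
    (hk : k < M s t) : Al (AV M rep V) x y k c d := by
  have e1 : i.1 = s := by rw [hi]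
  have e2 : i.2.1 = t := by rw [hi]
  rcases decomp h with h1 | ⟨k1, k2, j, h2, h3, h4, h5⟩
  · exact h1
  exfalso
  rw [e1, e2] at h3
  have h6 := h4.rev' (AV.symm _)
  have key : (tp x y k1 = tp s t j ∧ tp y x k1 = tp t s j) ∨
      (tp x y k1 = tp t s j ∧ tp y x k1 = tp s t j) := by
    rcases hxy with ⟨rfl, rfl⟩ | ⟨rfl, rfl⟩ <;>
      rcases tp_cases x y k1 with ⟨a1, a2⟩ | ⟨a1, a2⟩ <;>
      rcases tp_cases x y j with ⟨b1, b2⟩ | ⟨b1, b2⟩ <;>
      rw [a1, b1] <;> rcases tp_cases y x k1 with ⟨a3, a4⟩ | ⟨a3, a4⟩ <;>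
      simp_all
  rcases key with ⟨h7, h8⟩ | ⟨h7, h8⟩
  · rw [h7, h8] at h5 h6
    have h9 := outF hV hst hc₀ hd₀ hi hiV h3 h5 hd
    rcases outB hV hc₀ hd₀ hi hiV h3 h6 with ⟨-, rfl⟩ | ⟨h10, -⟩
    · exact hiV hc.1
    · omega
  · rw [h7, h8] at h5 h6
    have h9 := outF hV hst hc₀ hd₀ hi hiV h3 h6 hc
    rcases outB hV hc₀ hd₀ hi hiV h3 h5 with ⟨-, rfl⟩ | ⟨h10, -⟩
    · exact hiV hd.1
    · omega

end add

end Pool.Agent.Helper9.TD.Cpl
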