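import Pool.Agent.Helper9.TD.Cpl

/-!
# Free completion of chamber systems
-/

set_option autoImplicit false

namespace Pool.Agent.Helper9.TD.Cpl

open Pool.Agent.Helper9.TD

variable {S C : Type} {M : CoxeterMatrix S} {rep : S → C → C}

section add

variable {V : Set (Ix S C)} (hV : Fam M rep V) {s t : S} (hst : s ≠ t) (hm : M s t ≠ 0)
  {c₀ d₀ : Ch S C} (hc₀ : mem M V c₀) (hd₀ : mem M V d₀)
  (hg : Al (AV M rep V) s t (M s t) c₀ d₀)
  {i : Ix S C} (hi : i = (s, t, pan M rep t c₀, pan M rep (tp s t (M s t)) d₀))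

include hst hm in
theorem two_le : 2 ≤ M s t := by
  have := M.off_diagonal s t hst
  omega

include hV hst hm hg hi hc₀ hd₀ in
/-- If the path is there already then the gallery can be swapped. -/
theorem swap_mem (hiV : i ∈ V) : Al (AV M rep V) t s (M s t) c₀ d₀ := by
  have e1 : i.1 = s := by rw [hi]
  have e2 : i.2.1 = t := by rw [hi]
  have e3 : i.2.2.1 = pan M rep t c₀ := by rw [hi]
  have e4 : i.2.2.2 = pan M rep (tp s t (M s t)) d₀ := by rw [hi]
  have h2 := two_le hst hm
  have h1 := path_gal (M := M) (rep := rep) hiV (by rw [e1, e2]; exact hst) (M s t - 2) 0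
    (by rw [e1, e2]; omega)
  rw [e1, e2, Nat.zero_add] at h1
  have hpar : tp s t (M s t - 2) = tp s t (M s t) := by
    have := tp_add_two s t (M s t - 2)
    rw [show M s t - 2 + 2 = M s t by omega] at this
    exact this.symm
  have m1 : mem M V (Sum.inr (i, 0)) := ⟨hiV, by rw [e1, e2]; omega⟩
  have m2 : mem M V (Sum.inr (i, M s t - 2)) := ⟨hiV, by rw [e1, e2]; omega⟩
  refine swap_of (AV.symm V) (AV.trans V) hV.gir hst (by omega) hpar hg
    (Or.inl ⟨?_, hc₀, m1⟩) (Or.inl ⟨?_, m2, hd₀⟩) h1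
  · have := pan_low (M := M) (rep := rep) (i := i) 0
    rw [e1, e2, pn_zero, e3] at this
    exact this.symm
  · have := pan_up (M := M) (rep := rep) (i := i) (by rw [e1, e2]; exact hst) (M s t - 2)
    rw [e1, e2, pn_last (by omega) (by rw [e1, e2]; omega), e4, hpar] at this
    exact this

include hV hst hm hg hi hc₀ hd₀ in
/-- The outer panels are different. -/
theorem lo_ne_hi (h : tp s t (M s t) = t) : i.2.2.1 ≠ i.2.2.2 := by
  intro h1
  have e3 : i.2.2.1 = pan M rep t c₀ := by rw [hi]
  have e4 : i.2.2.2 = pan M rep (tp s t (M s t)) d₀ := by rw [hi]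
  rw [e3, e4, h] at h1
  have h2 := two_le hst hm
  by_cases hcd : d₀ = c₀
  · subst hcd
    have := hV.gir s t _ _ hst (by omega) hg
    omega
  · have h3 := hg.snoc (e := c₀) (by rw [h]; exact ⟨h1.symm, hd₀, hc₀⟩) hcd
    have := hV.gir s t _ _ hst (by omega) h3
    omega

variable (hiV : i ∉ V)

include hV hst hm hg hi hc₀ hd₀ hiV in
/-- A chamber on the outer panel `b` is old unless it is the first chamber of the path. -/
theorem old_lo {y : Ch S C} (hy : mem M (insert i V) y) (h : pan M rep t y = pan M rep t c₀)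
    (hne : y ≠ Sum.inr (i, 0)) : mem M V y := by
  have e1 : i.1 = s := by rw [hi]
  have e2 : i.2.1 = t := by rw [hi]
  have e3 : i.2.2.1 = pan M rep t c₀ := by rw [hi]
  rcases mem_insert hy with h1 | ⟨j, rfl, h1⟩
  · exact h1
  exfalso
  rw [e1, e2] at h1
  rcases pan_path (M := M) (rep := rep) (i := i) t j with ⟨-, h2, -⟩ | ⟨h2, h3⟩ | ⟨l, h2, -⟩
  · exact hne (by rw [h2])
  · rw [h, ← e3] at h2
    rw [e1, e2] at h3
    by_cases h4 : tp s t (M s t) = t
    · exact lo_ne_hi hV hst hm hc₀ hd₀ hg hi h4 h2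
    · -- the type of the last panel is not `t`
      rcases h3 with h3 | h3
      · omega
      · have h5 : tp s t (M s t) = s := by
          rcases tp_cases s t (M s t) with ⟨h6, -⟩ | ⟨h6, -⟩
          · exact h6
          · exact (h4 h6).elim
        -- the low panel of the last chamber has type `t`
        have h6 : tp s t j = s := by
          rw [← h3, tp_add_two] at h5
          exact h5
        have h7 : tp t s j = t := by
          rcases tp_cases s t j with ⟨-, h8⟩ | ⟨h8, -⟩
          · exact h8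
          · exact (hst (h6.symm.trans h8)).elim
        have h8 := pan_low (M := M) (rep := rep) (i := i) j
        rw [e1, e2, h7, h] at h8
        rcases Nat.eq_zero_or_pos j with rfl | hj
        · exact hne rfl
        · rw [pn_mid (by omega) (by rw [e1, e2]; omega), ← e3] at h8
          exact lo_ne hV hc₀ hi hiV _ h8
  · rw [h, ← e3] at h2
    exact lo_ne hV hc₀ hi hiV _ h2

include hV hst hm hg hi hc₀ hd₀ hiV in
/-- A chamber on the last panel is old unless it is the last chamber of the path. -/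
theorem old_hi {y : Ch S C} (hy : mem M (insert i V) y)
    (h : pan M rep (tp s t (M s t)) y = pan M rep (tp s t (M s t)) d₀)
    (hne : y ≠ Sum.inr (i, M s t - 2)) : mem M V y := by
  have e1 : i.1 = s := by rw [hi]
  have e2 : i.2.1 = t := by rw [hi]
  have e3 : i.2.2.1 = pan M rep t c₀ := by rw [hi]
  have e4 : i.2.2.2 = pan M rep (tp s t (M s t)) d₀ := by rw [hi]
  rcases mem_insert hy with h1 | ⟨j, rfl, h1⟩
  · exact h1
  exfalso
  rw [e1, e2] at h1
  rcases pan_path (M := M) (rep := rep) (i := i) (tp s t (M s t)) j with ⟨h2, h3, h4⟩ |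
    ⟨h2, h3⟩ | ⟨l, h2, -⟩
  · rw [h, ← e4] at h2
    rw [e2] at h4
    exact lo_ne_hi hV hst hm hc₀ hd₀ hg hi h4 h2.symm
  · rw [e1, e2] at h3
    rcases h3 with h3 | h3
    · omega
    · exact hne (by rw [show j = M s t - 2 by omega])
  · rw [h, ← e4] at h2
    exact hi_ne hV hd₀ hi hiV _ h2

include hV hst hm hg hi hc₀ hd₀ hiV in
/-- Closed galleries through the new path are long, unless the gallery can be swapped. -/
theorem closed_path (hno : ¬ Al (AV M rep V) t s (M s t) c₀ d₀) {n : ℕ} (hn : Even n)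
    (hn0 : 0 < n) {j : ℕ} (hj : j + 1 < M s t)
    (h : Al (AV M rep (insert i V)) (tp s t j) (tp t s j) n (Sum.inr (i, j)) (Sum.inr (i, j))) :
    2 * M s t ≤ n := by
  have e1 : i.1 = s := by rw [hi]
  have e2 : i.2.1 = t := by rw [hi]
  have e3 : i.2.2.1 = pan M rep t c₀ := by rw [hi]
  have e4 : i.2.2.2 = pan M rep (tp s t (M s t)) d₀ := by rw [hi]
  have h2 := two_le hst hm
  by_contra hlt
  push Not at hlt
  -- move to the end of the path
  have mv : ∀ d : ℕ, j + d + 1 < M s t → Al (AV M rep (insert i V)) (tp s t (j + d))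
      (tp t s (j + d)) n (Sum.inr (i, j + d)) (Sum.inr (i, j + d)) := by
    intro d
    induction d with
    | zero => exact fun _ => h
    | succ d ih =>
      intro hd
      obtain ⟨x, ⟨a1, a2, a3⟩, a4, a5⟩ := (ih (by omega)).rot hn hn0
      have a6 := pan_up (M := M) (rep := rep) (i := i) (by rw [e1, e2]; exact hst) (j + d)
      rw [e1, e2, a1, pn_mid (by omega) (by rw [e1, e2]; omega)] at a6
      obtain ⟨j', rfl, a7⟩ := eq_of_nwi hV hc₀ hd₀ hi hiV a3 a6
      rw [e1, e2] at a7
      have a8 : j' = j + (d + 1) := by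
        rcases a7 with ⟨-, a7 | a7⟩ | a7
        · omega
        · exact (a4 (by rw [show j' = j + d by omega])).elim
        · omega
      subst a8
      exact a5
  have h3 := mv (M s t - 2 - j) (by omega)
  have h4 : j + (M s t - 2 - j) = M s t - 2 := by omega
  rw [h4] at h3
  have h5 := h3.rev_even (AV.symm _) hn
  rcases outB hV hc₀ hd₀ hi hiV (by omega) h5 with ⟨h6, h7⟩ | ⟨h6, y, h7, h8, h9, h10⟩
  · have := congrArg Prod.snd (Sum.inr.inj h7)
    simp only at this
    omega
  have hy := old_lo hV hst hm hc₀ hd₀ hg hi hiV h9 h7 h8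
  have h11 : n - (M s t - 2 + 1) ≠ 0 := by
    intro h12
    rw [h12] at h10
    have := h10.zero
    rw [this] at hy
    exact hiV hy.1
  obtain ⟨k, hk⟩ : ∃ k, n - (M s t - 2 + 1) = k + 1 := ⟨n - (M s t - 2 + 1) - 1, by omega⟩
  rw [hk] at h10
  obtain ⟨x, h12, ⟨h13, h14, -⟩, h15⟩ := h10.last
  have hkn : k + M s t = n := by omega
  have hpar : tp s t k = tp s t (M s t) := by
    have hev : Even (k + M s t) := by rw [hkn]; exact hn
    rw [Nat.even_add] at hev
    by_cases hk' : Even k
    · rw [tp_even hk', tp_even (hev.1 hk')]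
    · rw [tp_odd hk', tp_odd fun h => hk' (hev.2 h)]
  have h16 : pan M rep (tp s t (M s t)) (Sum.inr (i, M s t - 2)) =
      pan M rep (tp s t (M s t)) d₀ := by
    have := pan_up (M := M) (rep := rep) (i := i) (by rw [e1, e2]; exact hst) (M s t - 2)
    rw [e1, e2, pn_last (by omega) (by rw [e1, e2]; omega), e4] at this
    have h17 : tp s t (M s t - 2) = tp s t (M s t) := by
      have := tp_add_two s t (M s t - 2)
      rw [show M s t - 2 + 2 = M s t by omega] at this
      exact this.symm
    rwa [h17] at this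
  rw [hpar, h16] at h13
  have hx := old_hi hV hst hm hc₀ hd₀ hg hi hiV h14 h13 h15
  have h17 := short hV hst hc₀ hd₀ hi hiV h12 (Or.inl ⟨rfl, rfl⟩) hy hx (by omega)
  have h18 : k + 2 ≤ M s t := by
    obtain ⟨r, hr⟩ := hn
    omega
  exact hno (swap_of (AV.symm V) (AV.trans V) hV.gir hst h18 hpar hg
    (Or.inl ⟨h7.symm, hc₀, hy⟩) (Or.inl ⟨h13, hx, hd₀⟩) h17)

include hV hst hm hg hi hc₀ hd₀ hiV in
/-- Adding a path. -/
theorem fam_insert (hno : ¬ Al (AV M rep V) t s (M s t) c₀ d₀) : Fam M rep (insert i V) := by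
  have e1 : i.1 = s := by rw [hi]
  have e2 : i.2.1 = t := by rw [hi]
  have e3 : i.2.2.1 = pan M rep t c₀ := by rw [hi]
  have e4 : i.2.2.2 = pan M rep (tp s t (M s t)) d₀ := by rw [hi]
  refine ⟨?_, ?_, ?_, ?_, ?_⟩
  · rintro k (rfl | hk)
    · rw [e1, e2]
      exact hst
    · exact hV.ne k hk
  · rintro k (rfl | hk)
    · rw [e1, e2]
      exact hm
    · exact hV.m0 k hk
  · rintro k (rfl | hk) l n h
    · rw [e3] at h
      exact Or.inr (code_mem hV hc₀ h)
    · exact Or.inr (hV.lo k hk l n h)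
  · rintro k (rfl | hk) l n h
    · rw [e4] at h
      exact Or.inr (code_mem hV hd₀ h)
    · exact Or.inr (hV.hi k hk l n h)
  · refine gir_of_even (AV.symm _) (AV.trans _) ?_
    intro x y n c hxy hn0 hn hc
    rcases decomp hc with h1 | ⟨k1, k2, j, h2, h3, h4, h5⟩
    · exact hV.gir x y n c hxy hn0 h1
    rw [e1, e2] at h3
    -- rotate
    have h6 : Al (AV M rep (insert i V)) (tp x y k1) (tp y x k1) n (Sum.inr (i, j))
        (Sum.inr (i, j)) := by
      have := h5.append (k := k1) (e := Sum.inr (i, j)) (by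
        have a1 : tp (tp x y k1) (tp y x k1) k2 = x := by
          rw [tp_add, h2]
          exact tp_even hn
        have a2 : tp (tp y x k1) (tp x y k1) k2 = y := by
          rw [tp_add, h2]
          exact tp_even hn
        rw [a1, a2]
        exact h4)
      rwa [show k2 + k1 = n by omega] at this
    obtain ⟨x', hx'⟩ : ∃ x', x' = tp x y k1 := ⟨_, rfl⟩
    obtain ⟨y', hy'⟩ : ∃ y', y' = tp y x k1 := ⟨_, rfl⟩
    rw [← hx', ← hy'] at h6
    have hxy' : x' ≠ y' := by
      rw [hx', hy']
      exact tp_ne hxy k1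
    have hM : M x y = M x' y' := by
      rcases tp_cases x y k1 with ⟨a1, a2⟩ | ⟨a1, a2⟩
      · rw [hx', hy', a1, a2]
      · rw [hx', hy', a1, a2, M.symmetric x y]
    rw [hM]
    have one : ∀ {a b : S}, Al (AV M rep (insert i V)) a b n (Sum.inr (i, j))
        (Sum.inr (i, j)) → a = s ∨ a = t := by
      intro a b hab
      by_contra hne
      push Not at hne
      obtain ⟨d, ⟨b1, b2, b3⟩, b4, -⟩ := hab.rot hn hn0
      rw [pan_other (by rw [e1]; exact hne.1) (by rw [e2]; exact hne.2)] at b1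
      obtain ⟨j', rfl, b5⟩ := eq_of_nwi hV hc₀ hd₀ hi hiV b3 b1.symm
      rw [e1, e2] at b5
      rcases b5 with ⟨b5, -⟩ | b5
      · omega
      · exact b4 (by rw [show j = j' by omega])
    have h7 := one h6
    have h8 := one (h6.rev_even (AV.symm _) hn)
    have h9 : M x' y' = M s t := by
      rcases h7 with rfl | rfl <;> rcases h8 with rfl | rfl
      · exact (hxy' rfl).elim
      · rfl
      · exact M.symmetric _ _
      · exact (hxy' rfl).elim
    rw [h9]
    have h10 : (x' = tp s t j ∧ y' = tp t s j) ∨ (x' = tp t s j ∧ y' = tp s t j) := by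
      rcases tp_cases s t j with ⟨a1, a2⟩ | ⟨a1, a2⟩ <;> rw [a1, a2] <;>
        rcases h7 with h7 | h7 <;> rcases h8 with h8 | h8 <;> simp_all
    rcases h10 with ⟨h11, h12⟩ | ⟨h11, h12⟩
    · rw [h11, h12] at h6
      exact closed_path hV hst hm hc₀ hd₀ hg hi hiV hno hn hn0 h3 h6
    · have h13 := h6.rev_even (AV.symm _) hn
      rw [h11, h12] at h13
      exact closed_path hV hst hm hc₀ hd₀ hg hi hiV hno hn hn0 h3 h13

end add

end Pool.Agent.Helper9.TD.Cpl
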