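import Pool.Agent.Helper9.TD.Levi

/-!
# Gates of panels and residues
-/

set_option autoImplicit false

namespace Pool.Agent.Helper9.TD

open Relation

section

variable {S C : Type} {A : S → C → C → Prop} {M : CoxeterMatrix S} {v : C}

variable (hC : CoxF M) (hA : ∀ s, Equivalence (A s)) (hG : Gir M A) (hP : Swp M A)

include hC hP in
theorem exists_last_aux (N : ℕ) : ∀ l : List (S × C), l.length ≤ N → Gd A M v l → ∀ s,
    Ds M (wt M l) s → ∃ c k, E A M v l ((s, c) :: k) := by
  induction N with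
  | zero =>
    intro l hl _ s hs
    have h1 : l = [] := List.eq_nil_of_length_eq_zero (by omega)
    subst h1
    exact (not_ds_one s hs).elim
  | succ N ih =>
    intro l hl hg s hs
    cases l with
    | nil => exact (not_ds_one s hs).elim
    | cons x k =>
      obtain ⟨t, c⟩ := x
      by_cases hst : t = s
      · subst hst
        exact ⟨c, k, ReflTransGen.refl⟩
      obtain ⟨hm, htwo⟩ := hC.two _ t s hst hg.ds hs
      have key : ∀ j, 1 ≤ j → j ≤ M t s → ∃ b β, Bk A t s j (en v β) b ∧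
          E A M v ((t, c) :: k) (b ++ β) := by
        intro j
        induction j with
        | zero => exact fun h => (by omega : False).elim
        | succ j ihj =>
          intro _ hj
          rcases Nat.eq_zero_or_pos j with rfl | hj0
          · exact ⟨[(t, c)], k, Bk.cons (Bk.nil _ _ _) hg.step.1 hg.step.2, ReflTransGen.refl⟩
          obtain ⟨b, β, hb, hE⟩ := ihj hj0 (by omega)
          have hg1 := (E.gd hE hg).of_append
          have hl1 : β.length ≤ N := by
            have h1 := (E.inv hE).1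
            rw [List.length_append, hb.length] at h1
            omega
          have hw : wt M ((t, c) :: k) * ap M t s j = wt M β := by
            rw [(E.inv hE).2.1, wt_append, hb.wt, mul_assoc]
            have h2 := ap_inv (M := M) (tp s t j) (tp t s j) j
            have h3 : tp (tp t s j) (tp s t j) j = t := by
              rw [tp_add]
              exact tp_even ⟨j, rfl⟩
            have h4 : tp (tp s t j) (tp t s j) j = s := by
              rw [tp_add]
              exact tp_even ⟨j, rfl⟩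
            rw [h3, h4] at h2
            rw [h2, mul_one]
          have h5 := htwo j (by omega)
          have h6 := htwo (j + 1) hj
          rw [ap_succ', ← mul_assoc, hw] at h6
          rw [hw] at h5
          have hd : Ds M (wt M β) (tp t s j) := by
            rw [ds_iff]
            omega
          obtain ⟨d, β', hE2⟩ := ih β hl1 hg1 _ hd
          have hg2 := E.gd hE2 hg1
          have hen : en v β = d := (E.inv hE2).2.2.1
          rw [hen] at hb
          refine ⟨b ++ [(tp t s j, d)], β', hb.bottom hg2.step.1 hg2.step.2, ?_⟩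
          rw [List.append_assoc]
          exact ReflTransGen.trans hE (E.append b hE2)
      obtain ⟨b, β, hb, hE⟩ := key (M t s) (by omega) le_rfl
      obtain ⟨L, hL, he⟩ := hb.swap hP hst hm
      have hE2 : E A M v ((t, c) :: k) (L ++ β) := hE.tail (Sw.here hst hm hb hL he.symm)
      obtain ⟨m, hmm⟩ : ∃ m, M t s = m + 1 := ⟨M t s - 1, by omega⟩
      rw [hmm] at hL
      obtain ⟨c', L', rfl, -⟩ := hL.head
      exact ⟨c', L' ++ β, hE2⟩

include hC hP in
/-- Descents are last letters. -/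
theorem exists_last {l : List (S × C)} (hg : Gd A M v l) {s : S} (hs : Ds M (wt M l) s) :
    ∃ c k, E A M v l ((s, c) :: k) := exists_last_aux hC hP l.length l le_rfl hg s hs

/-! ### Gates of panels -/

variable (A M v) in
/-- `k` is a gate of `l` for the panel of type `s`. -/
def G1 (s : S) (l k : List (S × C)) : Prop :=
  ¬ Ds M (wt M k) s ∧ (E A M v l k ∨ ∃ c, E A M v l ((s, c) :: k))

theorem G1.left {s : S} {l l' k : List (S × C)} (h : E A M v l l') (hk : G1 A M v s l k) :
    G1 A M v s l' k := by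
  refine ⟨hk.1, ?_⟩
  rcases hk.2 with h1 | ⟨c, h1⟩
  · exact Or.inl (ReflTransGen.trans (E.symm h) h1)
  · exact Or.inr ⟨c, ReflTransGen.trans (E.symm h) h1⟩

theorem G1.right {s : S} {l k k' : List (S × C)} (h : E A M v k k') (hk : G1 A M v s l k) :
    G1 A M v s l k' := by
  refine ⟨by rw [← (E.inv h).2.1]; exact hk.1, ?_⟩
  rcases hk.2 with h1 | ⟨c, h1⟩
  · exact Or.inl (ReflTransGen.trans h1 h)
  · exact Or.inr ⟨c, ReflTransGen.trans h1 (E.cons _ h)⟩

theorem G1.gd {s : S} {l k : List (S × C)} (hg : Gd A M v l) (hk : G1 A M v s l k) :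
    Gd A M v k := by
  rcases hk.2 with h1 | ⟨c, h1⟩
  · exact E.gd h1 hg
  · exact (E.gd h1 hg).tail

include hC hP in
theorem G1.exists {l : List (S × C)} (hg : Gd A M v l) (s : S) : ∃ k, G1 A M v s l k := by
  by_cases h : Ds M (wt M l) s
  · obtain ⟨c, k, hE⟩ := exists_last hC hP hg h
    exact ⟨k, (E.gd hE hg).not_ds, Or.inr ⟨c, hE⟩⟩
  · exact ⟨l, h, Or.inl ReflTransGen.refl⟩

/-- The word is the gate, or `s` is a descent. -/
theorem G1.ds {s : S} {l k : List (S × C)} (hg : Gd A M v l) {c : C}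
    (h : E A M v l ((s, c) :: k)) : Ds M (wt M l) s := by
  rw [(E.inv h).2.1]
  exact (E.gd h hg).ds

include hC hA hG in
theorem G1.unique {s : S} {l k k' : List (S × C)} (hg : Gd A M v l) (hk : G1 A M v s l k)
    (hk' : G1 A M v s l k') : E A M v k k' := by
  rcases hk.2 with h1 | ⟨c, h1⟩ <;> rcases hk'.2 with h2 | ⟨c', h2⟩
  · exact ReflTransGen.trans (E.symm h1) h2
  · exact (hk.1 (by rw [← (E.inv h1).2.1]; exact G1.ds hg h2)).elim
  · exact (hk'.1 (by rw [← (E.inv h2).2.1]; exact G1.ds hg h1)).elim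
  · exact cancel hC hA hG (E.gd h1 hg) (ReflTransGen.trans (E.symm h1) h2)

include hA in
theorem G1.adj {s : S} {l k : List (S × C)} (hg : Gd A M v l) (hk : G1 A M v s l k) :
    A s (en v l) (en v k) := by
  rcases hk.2 with h1 | ⟨c, h1⟩
  · rw [(E.inv h1).2.2.1]
    exact (hA s).refl _
  · rw [(E.inv h1).2.2.1]
    exact (hA s).symm (E.gd h1 hg).step.1

theorem G1.inj {s : S} {l l' k : List (S × C)} (hg : Gd A M v l) (hg' : Gd A M v l')
    (hk : G1 A M v s l k) (hk' : G1 A M v s l' k) (h : en v l = en v l') : E A M v l l' := by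
  rcases hk.2 with h1 | ⟨c, h1⟩ <;> rcases hk'.2 with h2 | ⟨c', h2⟩
  · exact ReflTransGen.trans h1 (E.symm h2)
  · exfalso
    refine (E.gd h2 hg').step.2 ?_
    have := (E.inv h1).2.2.1
    have h3 := (E.inv h2).2.2.1
    change en v l' = c' at h3
    rw [← this, h, h3]
  · exfalso
    refine (E.gd h1 hg).step.2 ?_
    have := (E.inv h2).2.2.1
    have h3 := (E.inv h1).2.2.1
    change en v l = c at h3
    rw [← this, ← h, h3]
  · have h3 := (E.inv h1).2.2.1
    have h4 := (E.inv h2).2.2.1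
    change en v l = c at h3
    change en v l' = c' at h4
    have h5 : c = c' := by rw [← h3, h, h4]
    subst h5
    exact ReflTransGen.trans h1 (E.symm h2)

/-! ### Gates of residues -/

variable (A M v) in
/-- `k` is a gate of `l` for the residue of type `{s, t}`. -/
def G2 (s t : S) (l k : List (S × C)) : Prop :=
  ¬ Ds M (wt M k) s ∧ ¬ Ds M (wt M k) t ∧ ∃ x y j b, ((x = s ∧ y = t) ∨ (x = t ∧ y = s)) ∧
    j ≤ M s t ∧ Bk A x y j (en v k) b ∧ E A M v l (b ++ k)

theorem G2.left {s t : S} {l l' k : List (S × C)} (h : E A M v l l') (hk : G2 A M v s t l k) :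
    G2 A M v s t l' k := by
  obtain ⟨h1, h2, x, y, j, b, h3, h4, h5, h6⟩ := hk
  exact ⟨h1, h2, x, y, j, b, h3, h4, h5, ReflTransGen.trans (E.symm h) h6⟩

theorem G2.right {s t : S} {l k k' : List (S × C)} (h : E A M v k k')
    (hk : G2 A M v s t l k) : G2 A M v s t l k' := by
  obtain ⟨h1, h2, x, y, j, b, h3, h4, h5, h6⟩ := hk
  refine ⟨by rw [← (E.inv h).2.1]; exact h1, by rw [← (E.inv h).2.1]; exact h2, x, y, j, b, h3,
    h4, by rw [← (E.inv h).2.2.1]; exact h5, ReflTransGen.trans h6 (E.append b h)⟩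

include hC in
/-- Lengths above a gate. -/
theorem len_gate {x y : S} (hxy : x ≠ y) {w : M.Group} (hx : ¬ Ds M w x) (hy : ¬ Ds M w y)
    (n : ℕ) {j : ℕ} (hj : j ≤ M x y) :
    len M (w * ap M (tp x y n) (tp y x n) j) = len M w + j := by
  rcases tp_cases x y n with ⟨h1, h2⟩ | ⟨h1, h2⟩
  · rw [h1, h2]
    exact hC.asc w x y hxy hx hy j hj
  · rw [h1, h2]
    exact hC.asc w y x hxy.symm hy hx j (by rw [M.symmetric y x]; exact hj)

include hC in
/-- The other type is not a descent if the block is short. -/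
theorem not_ds_other {x y : S} (hxy : x ≠ y) {k b : List (S × C)} {j : ℕ}
    (hx : ¬ Ds M (wt M k) x) (hy : ¬ Ds M (wt M k) y) (hb : Bk A x y j (en v k) b)
    (hj : j < M x y) : ¬ Ds M (wt M (b ++ k)) y := by
  rw [not_ds, wt_append, hb.wt]
  have h1 := len_gate hC hxy.symm hy hx j (j := j) (by rw [M.symmetric]; omega)
  have h2 := len_gate hC hxy.symm hy hx j (j := j + 1) (by rw [M.symmetric y x]; omega)
  have h3 : tp (tp y x j) (tp x y j) j = y := by
    rw [tp_add]
    exact tp_even ⟨j, rfl⟩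
  rw [ap_succ', h3, ← mul_assoc] at h2
  rw [h2, h1]
  omega

include hC in
/-- Both types are descents if the block is long. -/
theorem ds_other {x y : S} (hxy : x ≠ y) (hm : M x y ≠ 0) {k b : List (S × C)}
    (hx : ¬ Ds M (wt M k) x) (hy : ¬ Ds M (wt M k) y) (hb : Bk A x y (M x y) (en v k) b) :
    Ds M (wt M (b ++ k)) y := by
  obtain ⟨m, hmm⟩ : ∃ m, M x y = m + 1 := ⟨M x y - 1, by omega⟩
  have h1 : wt M (b ++ k) = wt M k * ap M (tp x y (M x y)) (tp y x (M x y)) (M x y) := by
    rw [wt_append, hb.wt]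
    congr 1
    rcases tp_cases x y (M x y) with ⟨b1, b2⟩ | ⟨b1, b2⟩
    · rw [b1, b2]
      exact (braid x y).symm
    · rw [b1, b2]
      exact braid x y
  have h2 := len_gate hC hxy hx hy (M x y) (j := M x y) le_rfl
  have h3 := len_gate hC hxy hx hy (M x y) (j := m) (by omega)
  rw [← h1] at h2
  have h5 : ∀ a c : S, tp a c m = y → ap M a c (M x y) = ap M a c m * M.simple y := by
    intro a c hac
    rw [hmm, ap_succ', hac]
  have h4 : wt M (b ++ k) * M.simple y =
      wt M k * ap M (tp x y (M x y)) (tp y x (M x y)) m := by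
    rw [h1, h5 _ _ (by
      rw [tp_add, hmm, show m + 1 + m = (m + m) + 1 by ring, tp_succ]
      exact tp_even ⟨m, rfl⟩), ← mul_assoc, mul_mul_self]
  rw [ds_iff, h4, h3, h2]
  omega

include hC in
/-- One step inside the residue. -/
theorem G2.step {s t u : S} (hst : s ≠ t) (hm : M s t ≠ 0) (hu : u = s ∨ u = t) {c : C}
    {k g : List (S × C)} (hg : Gd A M v ((u, c) :: k)) (h : G2 A M v s t k g) :
    G2 A M v s t ((u, c) :: k) g := by
  obtain ⟨h1, h2, x, y, j, b, h3, h4, h5, h6⟩ := h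
  have hxy : x ≠ y := by
    rcases h3 with ⟨rfl, rfl⟩ | ⟨rfl, rfl⟩
    · exact hst
    · exact hst.symm
  have hMxy : M x y = M s t := by
    rcases h3 with ⟨rfl, rfl⟩ | ⟨rfl, rfl⟩
    · rfl
    · exact M.symmetric _ _
  have hx : ¬ Ds M (wt M g) x := by
    rcases h3 with ⟨rfl, rfl⟩ | ⟨rfl, rfl⟩ <;> assumption
  have hy : ¬ Ds M (wt M g) y := by
    rcases h3 with ⟨rfl, rfl⟩ | ⟨rfl, rfl⟩ <;> assumption
  have hen : en v k = en (en v g) b := by rw [(E.inv h6).2.2.1, en_append]
  have hst1 := hg.step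
  rw [hen] at hst1
  rcases Nat.eq_zero_or_pos j with rfl | hj
  · cases h5
    obtain ⟨u', hu'⟩ : ∃ u', (u = s ∧ u' = t) ∨ (u = t ∧ u' = s) := by
      rcases hu with rfl | rfl
      · exact ⟨t, Or.inl ⟨rfl, rfl⟩⟩
      · exact ⟨s, Or.inr ⟨rfl, rfl⟩⟩
    exact ⟨h1, h2, u, u', 1, [(u, c)], hu', by omega,
      Bk.cons (Bk.nil _ _ _) hst1.1 hst1.2, E.cons _ h6⟩
  · obtain ⟨j, rfl⟩ : ∃ i, j = i + 1 := ⟨j - 1, by omega⟩
    obtain ⟨c1, b1, rfl, -⟩ := h5.head
    have hux : u ≠ x := by
      rintro rfl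
      exact hg.not_ds (G1.ds hg.tail h6)
    have huy : u = y := by
      rcases h3 with ⟨rfl, rfl⟩ | ⟨rfl, rfl⟩
      · exact hu.resolve_left hux
      · exact hu.resolve_right hux
    subst huy
    refine ⟨h1, h2, u, x, j + 1 + 1, (u, c) :: (x, c1) :: b1, ?_, ?_,
      Bk.cons h5 hst1.1 hst1.2, E.cons _ h6⟩
    · rcases h3 with ⟨rfl, rfl⟩ | ⟨rfl, rfl⟩
      · exact Or.inr ⟨rfl, rfl⟩
      · exact Or.inl ⟨rfl, rfl⟩
    · by_contra h7
      have h8 : j + 1 = M x u := by omega
      rw [h8] at h5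
      have h9 := ds_other hC hxy (by omega) hx hy h5
      rw [← (E.inv h6).2.1] at h9
      exact hg.not_ds h9

include hC hP in
theorem G2.exists {s t : S} (hst : s ≠ t) (hm : M s t ≠ 0) {l : List (S × C)}
    (hg : Gd A M v l) : ∃ g, G2 A M v s t l g := by
  obtain ⟨N, hN⟩ : ∃ N, l.length = N := ⟨_, rfl⟩
  induction N using Nat.strong_induction_on generalizing l with
  | _ N ih =>
    by_cases h : ∃ u, (u = s ∨ u = t) ∧ Ds M (wt M l) u
    · obtain ⟨u, hu, hd⟩ := h
      obtain ⟨c, k, hE⟩ := exists_last hC hP hg hd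
      have h1 := (E.inv hE).1
      rw [List.length_cons] at h1
      have hg1 := E.gd hE hg
      obtain ⟨g, h2⟩ := ih k.length (by omega) hg1.tail rfl
      exact ⟨g, (h2.step hC hst hm hu hg1).left (E.symm hE)⟩
    · push Not at h
      exact ⟨l, h s (Or.inl rfl), h t (Or.inr rfl), s, t, 0, [], Or.inl ⟨rfl, rfl⟩,
        Nat.zero_le _, Bk.nil _ _ _, ReflTransGen.refl⟩

include hC in
theorem G2.of_G1 {s t u : S} (hst : s ≠ t) (hm : M s t ≠ 0) (hu : u = s ∨ u = t)
    {l k g : List (S × C)} (hg : Gd A M v l) (h : G1 A M v u l k) (h' : G2 A M v s t k g) :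
    G2 A M v s t l g := by
  rcases h.2 with h1 | ⟨c, h1⟩
  · exact h'.left (E.symm h1)
  · exact (h'.step hC hst hm hu (E.gd h1 hg)).left (E.symm h1)

include hC hA hG hP in
theorem G2.unique {s t : S} (hst : s ≠ t) (hm : M s t ≠ 0) {l g g' : List (S × C)}
    (hg : Gd A M v l) (h : G2 A M v s t l g) (h' : G2 A M v s t l g') : E A M v g g' := by
  obtain ⟨N, hN⟩ : ∃ N, l.length = N := ⟨_, rfl⟩
  induction N using Nat.strong_induction_on generalizing l with
  | _ N ih =>
    obtain ⟨h1, h2, x, y, j, b, h3, h4, h5, h6⟩ := h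
    obtain ⟨h1', h2', x', y', j', b', h3', h4', h5', h6'⟩ := h'
    have hxy : x ≠ y := by
      rcases h3 with ⟨rfl, rfl⟩ | ⟨rfl, rfl⟩
      · exact hst
      · exact hst.symm
    have hxy' : x' ≠ y' := by
      rcases h3' with ⟨rfl, rfl⟩ | ⟨rfl, rfl⟩
      · exact hst
      · exact hst.symm
    have hMxy : M x y = M s t := by
      rcases h3 with ⟨rfl, rfl⟩ | ⟨rfl, rfl⟩
      · rfl
      · exact M.symmetric _ _
    have hMxy' : M x' y' = M s t := by
      rcases h3' with ⟨rfl, rfl⟩ | ⟨rfl, rfl⟩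
      · rfl
      · exact M.symmetric _ _
    have hno : ∀ {u}, (u = s ∨ u = t) → E A M v l g → ¬ Ds M (wt M l) u := by
      intro u hu hE
      rw [(E.inv hE).2.1]
      rcases hu with rfl | rfl <;> assumption
    have hno' : ∀ {u}, (u = s ∨ u = t) → E A M v l g' → ¬ Ds M (wt M l) u := by
      intro u hu hE
      rw [(E.inv hE).2.1]
      rcases hu with rfl | rfl <;> assumption
    have hxst : x = s ∨ x = t := by
      rcases h3 with ⟨rfl, rfl⟩ | ⟨rfl, rfl⟩
      · exact Or.inl rfl
      · exact Or.inr rfl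
    have hxst' : x' = s ∨ x' = t := by
      rcases h3' with ⟨rfl, rfl⟩ | ⟨rfl, rfl⟩
      · exact Or.inl rfl
      · exact Or.inr rfl
    -- the case of equal top types
    have key : ∀ {z z' j1 j1'} {b1 b1' : List (S × C)}, ((z = s ∧ z' = t) ∨ (z = t ∧ z' = s)) →
        j1 ≤ M s t → j1' ≤ M s t → Bk A z z' (j1 + 1) (en v g) b1 →
        Bk A z z' (j1' + 1) (en v g') b1' → E A M v l (b1 ++ g) → E A M v l (b1' ++ g') →
        E A M v g g' := by
      intro z z' j1 j1' b1 b1' hz hj1 hj1' hb1 hb1' hE hE'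
      obtain ⟨c, L, rfl, a1, -⟩ := hb1.head
      obtain ⟨c', L', rfl, a1', -⟩ := hb1'.head
      rw [List.cons_append] at hE hE'
      have hg1 := E.gd hE hg
      have hE2 := cancel hC hA hG hg1 (ReflTransGen.trans (E.symm hE) hE')
      have hlen := (E.inv hE).1
      rw [List.length_cons] at hlen
      have hz' : (z' = s ∧ z = t) ∨ (z' = t ∧ z = s) := by
        rcases hz with ⟨rfl, rfl⟩ | ⟨rfl, rfl⟩
        · exact Or.inr ⟨rfl, rfl⟩
        · exact Or.inl ⟨rfl, rfl⟩
      exact ih (L ++ g).length (by omega) hg1.tail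
        ⟨h1, h2, z', z, j1, L, hz', hj1, a1, ReflTransGen.refl⟩
        ⟨h1', h2', z', z, j1', L', hz', hj1', a1', hE2⟩ rfl
    rcases Nat.eq_zero_or_pos j with rfl | hj
    · cases h5
      rcases Nat.eq_zero_or_pos j' with rfl | hj'
      · cases h5'
        exact ReflTransGen.trans (E.symm h6) h6'
      · exfalso
        obtain ⟨j', rfl⟩ : ∃ i, j' = i + 1 := ⟨j' - 1, by omega⟩
        obtain ⟨c1, b1, rfl, -⟩ := h5'.head
        exact hno hxst' h6 (G1.ds hg h6')
    rcases Nat.eq_zero_or_pos j' with rfl | hj'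
    · exfalso
      cases h5'
      obtain ⟨j, rfl⟩ : ∃ i, j = i + 1 := ⟨j - 1, by omega⟩
      obtain ⟨c1, b1, rfl, -⟩ := h5.head
      exact hno' hxst h6' (G1.ds hg h6)
    obtain ⟨j, rfl⟩ : ∃ i, j = i + 1 := ⟨j - 1, by omega⟩
    obtain ⟨j', rfl⟩ : ∃ i, j' = i + 1 := ⟨j' - 1, by omega⟩
    by_cases hxx : x = x'
    · subst hxx
      have hyy : y = y' := by
        rcases h3 with ⟨rfl, rfl⟩ | ⟨rfl, rfl⟩ <;> rcases h3' with ⟨a1, rfl⟩ | ⟨a1, rfl⟩
        · rfl
        · exact (hst a1).elim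
        · exact (hst a1.symm).elim
        · rfl
      subst hyy
      exact key h3 (by omega) (by omega) h5 h5' h6 h6'
    · -- both types are descents
      have hyx : y = x' ∧ x = y' := by
        rcases h3 with ⟨rfl, rfl⟩ | ⟨rfl, rfl⟩ <;> rcases h3' with ⟨rfl, rfl⟩ | ⟨rfl, rfl⟩
        · exact (hxx rfl).elim
        · exact ⟨rfl, rfl⟩
        · exact ⟨rfl, rfl⟩
        · exact (hxx rfl).elim
      obtain ⟨rfl, rfl⟩ := hyx
      have hx : ¬ Ds M (wt M g) x := by
        rcases h3 with ⟨rfl, rfl⟩ | ⟨rfl, rfl⟩ <;> assumption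
      have hy : ¬ Ds M (wt M g) y := by
        rcases h3 with ⟨rfl, rfl⟩ | ⟨rfl, rfl⟩ <;> assumption
      have hdy : Ds M (wt M l) y := by
        obtain ⟨c1, b1, rfl, -⟩ := h5'.head
        exact G1.ds hg h6'
      have hjM : j + 1 = M x y := by
        by_contra hne
        have := not_ds_other (v := v) hC hxy hx hy h5 (by omega)
        rw [← (E.inv h6).2.1] at this
        exact this hdy
      have h5s := h5
      rw [hjM] at h5s
      obtain ⟨L, hL, he⟩ := h5s.swap hP hxy (by omega)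
      have h7 : E A M v l (L ++ g) := h6.tail (Sw.here hxy (by omega) h5s hL he.symm)
      rw [← hjM] at hL
      exact key h3' (by omega) (by omega) hL h5' h7 h6'

theorem tp_pair {s t x y x' y' : S} (h3 : (x = s ∧ y = t) ∨ (x = t ∧ y = s))
    (h3' : (x' = s ∧ y' = t) ∨ (x' = t ∧ y' = s)) (j j' : ℕ) :
    (tp y x j = tp y' x' j' ∧ tp x y j = tp x' y' j') ∨
      (tp y' x' j' = tp x y j ∧ tp x' y' j' = tp y x j) := by
  rcases tp_cases s t j with ⟨b1, b2⟩ | ⟨b1, b2⟩ <;>
    rcases tp_cases s t j' with ⟨b3, b4⟩ | ⟨b3, b4⟩ <;>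
    rcases h3 with ⟨h, h'⟩ | ⟨h, h'⟩ <;> rcases h3' with ⟨h1, h1'⟩ | ⟨h1, h1'⟩ <;>
    rw [h, h', h1, h1', b1, b2, b3, b4] <;> simp

include hA hG in
theorem G2.inj {s t : S} (hst : s ≠ t) {l l' g : List (S × C)}
    (h : G2 A M v s t l g) (h' : G2 A M v s t l' g) (he : en v l = en v l') :
    E A M v l l' := by
  obtain ⟨h1, h2, x, y, j, b, h3, h4, h5, h6⟩ := h
  obtain ⟨-, -, x', y', j', b', h3', h4', h5', h6'⟩ := h'
  have hxy : x ≠ y := by
    rcases h3 with ⟨rfl, rfl⟩ | ⟨rfl, rfl⟩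
    · exact hst
    · exact hst.symm
  have hMxy : M x y = M s t := by
    rcases h3 with ⟨rfl, rfl⟩ | ⟨rfl, rfl⟩
    · rfl
    · exact M.symmetric _ _
  have heb : en (en v g) b = en (en v g) b' := by
    have a1 := (E.inv h6).2.2.1
    have a2 := (E.inv h6').2.2.1
    rw [en_append] at a1 a2
    rw [← a1, ← a2, he]
  have al := h5.al
  have al' := h5'.al
  rw [← heb] at al'
  suffices h7 : E A M v (b ++ g) (b' ++ g) from
    ReflTransGen.trans (ReflTransGen.trans h6 h7) (E.symm h6')
  have hsy : ∀ s c d, A s c d → A s d c := fun s _ _ h => (hA s).symm h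
  have htr : ∀ s c d e, A s c d → A s d e → A s c e := fun s _ _ _ h h' => (hA s).trans h h'
  have hMt : ∀ n, M (tp y x n) (tp x y n) = M s t := by
    intro n
    rcases tp_cases x y n with ⟨b1, b2⟩ | ⟨b1, b2⟩
    · rw [b1, b2, M.symmetric, hMxy]
    · rw [b1, b2, hMxy]
  -- the first types
  by_cases hf : tp y x j = tp y' x' j'
  · have hf' : tp x y j = tp x' y' j' := by
      rcases tp_pair h3 h3' j j' with b1 | b1
      · exact b1.2
      · exact (tp_ne hxy j (b1.1.symm.trans hf.symm)).elim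
    rw [← hf, ← hf'] at al'
    by_cases hjj : j = j'
    · subst hjj
      have hx : x = x' ∧ y = y' := by
        rcases h3 with ⟨rfl, rfl⟩ | ⟨rfl, rfl⟩ <;> rcases h3' with ⟨rfl, rfl⟩ | ⟨rfl, rfl⟩
        · exact ⟨rfl, rfl⟩
        · exact (tp_ne hxy.symm j hf).elim
        · exact (tp_ne hxy.symm j hf).elim
        · exact ⟨rfl, rfl⟩
      obtain ⟨rfl, rfl⟩ := hx
      rw [h5.uniq hA hG hxy h5' (by omega) heb]
    · exfalso
      have := two_eq hsy htr hG (tp_ne hxy.symm j) al al' hjj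
      rw [hMt] at this
      omega
  · have hf1 : tp y' x' j' = tp x y j ∧ tp x' y' j' = tp y x j := by
      rcases tp_pair h3 h3' j j' with b1 | b1
      · exact (hf b1.1).elim
      · exact b1
    rw [hf1.1, hf1.2] at al'
    rcases two_ne hsy htr hG (tp_ne hxy.symm j) al al' with ⟨rfl, rfl⟩ | h8
    · cases h5
      cases h5'
      exact ReflTransGen.refl
    · rw [hMt] at h8
      have hj : j = M s t := by omega
      have hj' : j' = M s t := by omega
      subst hj
      subst hj'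
      have hx : x = y' ∧ y = x' := by
        rcases h3 with ⟨rfl, rfl⟩ | ⟨rfl, rfl⟩ <;> rcases h3' with ⟨rfl, rfl⟩ | ⟨rfl, rfl⟩
        · exact (hf rfl).elim
        · exact ⟨rfl, rfl⟩
        · exact ⟨rfl, rfl⟩
        · exact (hf rfl).elim
      obtain ⟨rfl, rfl⟩ := hx
      rw [← hMxy] at h5 h5'
      by_cases hm : M x y = 0
      · rw [hm] at h5 h5'
        cases h5
        cases h5'
        exact ReflTransGen.refl
      · exact ReflTransGen.single (Sw.here hxy hm h5 h5' heb)

end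

end Pool.Agent.Helper9.TD
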