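import Pool.Agent.Helper9.TD.Wd

/-!
# The Levi property
-/

set_option autoImplicit false

namespace Pool.Agent.Helper9.TD

open Relation

section

variable {S C : Type} {A : S → C → C → Prop} {M : CoxeterMatrix S} {v : C}

variable (A M v) in
/-- The Levi property of two words. -/
inductive LV : List (S × C) → List (S × C) → Prop
  | nil : LV [] []
  | eq (s : S) (c : C) (k k' : List (S × C)) : E A M v k k' → LV ((s, c) :: k) ((s, c) :: k')
  | two (s t : S) (β : List (S × C)) (c : C) (b b' k k' : List (S × C)) : s ≠ t → M s t ≠ 0 →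
      Bk A s t (M s t) (en v β) ((s, c) :: b) → Bk A t s (M s t) (en v β) ((t, c) :: b') →
      E A M v k (b ++ β) → E A M v k' (b' ++ β) → LV ((s, c) :: k) ((t, c) :: k')

variable (hC : CoxF M) (hA : ∀ s, Equivalence (A s)) (hG : Gir M A)

/-- The tails of equal words with blocks of the same type. -/
theorem peel {N : ℕ} (ih : ∀ l l' : List (S × C), l.length ≤ N → Gd A M v l → E A M v l l' →
    LV A M v l l') {s t : S} {j : ℕ} {b b' β β' : List (S × C)}
    (hb : Bk A s t j (en v β) b) (hb' : Bk A s t j (en v β') b') (hl : (b ++ β).length ≤ N)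
    (hg : Gd A M v (b ++ β)) (h : E A M v (b ++ β) (b' ++ β')) : b = b' ∧ E A M v β β' := by
  induction j generalizing s t b b' with
  | zero =>
    cases hb
    cases hb'
    exact ⟨rfl, h⟩
  | succ j ihj =>
    obtain ⟨c, L, rfl, h1, -, -⟩ := hb.head
    obtain ⟨c', L', rfl, h1', -, -⟩ := hb'.head
    have h2 := ih _ _ hl hg h
    rw [List.cons_append, List.cons_append] at h2
    have h3 : c = c' ∧ E A M v (L ++ β) (L' ++ β') := by
      generalize h4 : (s, c) :: (L ++ β) = l at h2
      generalize h5 : (s, c') :: (L' ++ β') = l' at h2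
      cases h2 with
      | nil => exact (List.cons_ne_nil _ _ h4).elim
      | eq s1 c1 k k' h6 =>
        obtain ⟨h7, rfl⟩ := List.cons.inj h4
        obtain ⟨h8, rfl⟩ := List.cons.inj h5
        exact ⟨(congrArg Prod.snd h7).trans (congrArg Prod.snd h8).symm, h6⟩
      | two s1 t1 β1 c1 b1 b1' k k' h6 h7 h8 h9 h10 h11 =>
        obtain ⟨h12, rfl⟩ := List.cons.inj h4
        obtain ⟨h13, rfl⟩ := List.cons.inj h5
        exact (h6 ((congrArg Prod.fst h12).symm.trans (congrArg Prod.fst h13))).elim
    obtain ⟨rfl, h4⟩ := h3
    rw [List.cons_append] at hl hg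
    obtain ⟨rfl, h5⟩ := ihj h1 h1' (by
      rw [List.length_cons] at hl
      omega) hg.tail h4
    exact ⟨rfl, h5⟩

include hC hA hG in
theorem levi_aux (N : ℕ) : ∀ l l' : List (S × C), l.length ≤ N → Gd A M v l → E A M v l l' →
    LV A M v l l' := by
  induction N with
  | zero =>
    intro l l' hl hg h
    have h1 : l = [] := List.eq_nil_of_length_eq_zero (by omega)
    subst h1
    have h2 := h.inv.1
    have h3 : l' = [] := List.eq_nil_of_length_eq_zero (by rw [← h2]; rfl)
    subst h3
    exact LV.nil
  | succ N ih =>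
    intro l l' hl hg h
    induction h with
    | refl =>
      cases l with
      | nil => exact LV.nil
      | cons x k =>
        obtain ⟨s, c⟩ := x
        exact LV.eq _ _ _ _ ReflTransGen.refl
    | @tail l1 l2 h1 h2 ihE =>
      have hg1 := E.gd h1 hg
      have hg2 := E.gd (h1.tail h2) hg
      cases ihE with
      | nil =>
        have h3 := h2.inv.1
        have h4 : l2 = [] := List.eq_nil_of_length_eq_zero (by rw [← h3]; rfl)
        subst h4
        exact LV.nil
      | eq s c k k' h3 =>
        generalize h4 : (s, c) :: k' = l1 at h2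
        cases h2 with
        | @here s1 t1 β L L' a1 a2 a3 a4 a5 =>
          obtain ⟨m, hm⟩ : ∃ m, M s1 t1 = m + 1 := ⟨M s1 t1 - 1, by omega⟩
          have a3' := a3
          have a4' := a4
          rw [hm] at a3' a4'
          obtain ⟨c1, b, rfl, -, -, -⟩ := a3'.head
          obtain ⟨c2, b', rfl, -, -, -⟩ := a4'.head
          rw [List.cons_append] at h4
          obtain ⟨h5, rfl⟩ := List.cons.inj h4
          obtain ⟨rfl, rfl⟩ := Prod.mk.inj h5
          obtain rfl : c = c2 := a5
          exact LV.two _ _ β _ b b' _ _ a1 a2 a3 a4 h3 ReflTransGen.refl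
        | @cons x k1 k2 a1 =>
          obtain ⟨rfl, rfl⟩ := List.cons.inj h4
          exact LV.eq _ _ _ _ (h3.tail a1)
      | two s t β c b b' k k' b1 b2 b3 b4 b5 b6 =>
        generalize h4 : (t, c) :: k' = l1 at h2
        cases h2 with
        | @here t1 u β1 L L' a1 a2 a3 a4 a5 =>
          obtain ⟨m, hm⟩ : ∃ m, M t1 u = m + 1 := ⟨M t1 u - 1, by omega⟩
          have a3' := a3
          have a4' := a4
          rw [hm] at a3' a4'
          obtain ⟨c1, L1, rfl, a6, -, -⟩ := a3'.head
          obtain ⟨c2, L2, rfl, a7, -, -⟩ := a4'.head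
          rw [List.cons_append] at h4
          obtain ⟨h5, rfl⟩ := List.cons.inj h4
          obtain ⟨rfl, rfl⟩ := Prod.mk.inj h5
          obtain rfl : c = c2 := a5
          by_cases hus : u = s
          · subst hus
            have hmm : M u t = m + 1 := by rw [M.symmetric u t, hm]
            have b3' := b3
            have b4' := b4
            rw [hmm] at b3' b4'
            obtain ⟨_, _, c3, b7, -, -⟩ := b4'.head
            obtain ⟨h6, rfl⟩ := List.cons.inj c3
            -- the tails
            have hg3 : Gd A M v (L1 ++ β1) := (E.gd h1 hg).tail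
            have hl3 : (L1 ++ β1).length ≤ N := by
              have := (E.inv h1).1
              rw [List.length_cons, List.length_cons] at this
              rw [List.length_cons] at hl
              omega
            obtain ⟨rfl, h7⟩ := peel ih a6 b7 hl3 hg3 b6
            have h8 : en v β1 = en v β := h7.inv.2.2.1
            rw [h8, hm] at a4
            rw [hmm] at b3
            have h9 := b3.uniq hA hG (Ne.symm a1) a4 (by omega) rfl
            obtain ⟨-, rfl⟩ := List.cons.inj h9
            exact LV.eq _ _ _ _ (b5.trans (E.append b (E.symm h7)))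
          · exfalso
            have d1 := hg.ds
            have d2 := hg1.ds
            have d3 := hg2.ds
            rw [← (E.inv h1).2.1] at d2
            have d4 : wt M ((s, c) :: k) = wt M ((u, c) :: (L2 ++ β1)) :=
              (E.inv (h1.tail (Sw.here (v := v) a1 a2 a3 a4 rfl))).2.1
            have d5 : Ds M (wt M ((u, c) :: (L2 ++ β1))) u := d3
            rw [← d4] at d5
            exact hC.three _ s t u b1 a1 (Ne.symm hus) d1 d2 d5
        | @cons x k1 k2 a1 =>
          obtain ⟨rfl, rfl⟩ := List.cons.inj h4
          exact LV.two _ _ β _ b b' _ _ b1 b2 b3 b4 b5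
            (ReflTransGen.trans (E.symm (ReflTransGen.single a1)) b6)

include hC hA hG in
/-- **The Levi property.** -/
theorem levi {l l' : List (S × C)} (hg : Gd A M v l) (h : E A M v l l') : LV A M v l l' :=
  levi_aux hC hA hG l.length l l' le_rfl hg h

include hC hA hG in
/-- Equal last letters can be cancelled. -/
theorem cancel {s : S} {c c' : C} {l l' : List (S × C)} (hg : Gd A M v ((s, c) :: l))
    (h : E A M v ((s, c) :: l) ((s, c') :: l')) : E A M v l l' := by
  have h2 := levi hC hA hG hg h
  generalize h4 : (s, c) :: l = k at h2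
  generalize h5 : (s, c') :: l' = k' at h2
  cases h2 with
  | nil => exact (List.cons_ne_nil _ _ h4).elim
  | eq s1 c1 k k' h6 =>
    obtain ⟨h7, rfl⟩ := List.cons.inj h4
    obtain ⟨h8, rfl⟩ := List.cons.inj h5
    exact h6
  | two s1 t1 β1 c1 b1 b1' k k' h6 h7 h8 h9 h10 h11 =>
    obtain ⟨h12, rfl⟩ := List.cons.inj h4
    obtain ⟨h13, rfl⟩ := List.cons.inj h5
    exact (h6 ((congrArg Prod.fst h12).symm.trans (congrArg Prod.fst h13))).elim

end

end Pool.Agent.Helper9.TD
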