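import Pool.Agent.Helper9.TD.Al

/-!
# Galleries as words
-/

set_option autoImplicit false

namespace Pool.Agent.Helper9.TD

open Relation

/-! ### Coxeter groups -/

section

variable {S : Type} {M : CoxeterMatrix S}

theorem simple_mul_self (s : S) : M.simple s * M.simple s = 1 := by
  have := M.toCoxeterSystem.simple_mul_simple_self s
  rwa [M.toCoxeterSystem_simple] at this

theorem mul_mul_self (w : M.Group) (s : S) : w * M.simple s * M.simple s = w := by
  rw [mul_assoc, simple_mul_self, mul_one]

theorem len_mul (w : M.Group) (s : S) :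
    len M (w * M.simple s) = len M w + 1 ∨ len M (w * M.simple s) + 1 = len M w := by
  have := M.toCoxeterSystem.length_mul_simple w s
  rwa [M.toCoxeterSystem_simple] at this

theorem not_ds {w : M.Group} {s : S} : ¬ Ds M w s ↔ len M (w * M.simple s) = len M w + 1 := by
  unfold Ds
  rcases len_mul w s with h | h <;> omega

theorem ds_iff {w : M.Group} {s : S} : Ds M w s ↔ len M (w * M.simple s) + 1 = len M w := by
  unfold Ds
  rcases len_mul w s with h | h <;> omega

theorem ds_mul {w : M.Group} {s : S} (h : ¬ Ds M w s) : Ds M (w * M.simple s) s := by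
  rw [ds_iff, mul_mul_self, not_ds.1 h]

theorem len_one : len M 1 = 0 := M.toCoxeterSystem.length_one

theorem not_ds_one (s : S) : ¬ Ds M 1 s := by
  unfold Ds
  rw [len_one]
  omega

theorem ap_succ' (s t : S) (n : ℕ) :
    ap M s t (n + 1) = ap M s t n * M.simple (tp s t n) := by
  induction n generalizing s t with
  | zero => simp [ap, tp]
  | succ n ih =>
    rw [ap, ih, ap, tp_succ, mul_assoc]

theorem ap_inv (s t : S) (n : ℕ) : ap M s t n * ap M (tp t s n) (tp s t n) n = 1 := by
  induction n with
  | zero => simp [ap]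
  | succ n ih =>
    rw [ap_succ', tp_succ, tp_succ, ap, mul_assoc, ← mul_assoc (M.simple _) (M.simple _),
      simple_mul_self, one_mul, ih]

theorem ap_two_mul (s t : S) (k : ℕ) : ap M s t (2 * k) = (M.simple s * M.simple t) ^ k := by
  induction k with
  | zero => simp [ap]
  | succ k ih =>
    rw [show 2 * (k + 1) = 2 * k + 1 + 1 by ring, ap, ap, ih, pow_succ', mul_assoc]

theorem braid (s t : S) : ap M s t (M s t) = ap M t s (M s t) := by
  have h : (M.simple s * M.simple t) ^ M s t = 1 := by
    have := M.toCoxeterSystem.simple_mul_simple_pow s t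
    rwa [M.toCoxeterSystem_simple] at this
  have h1 : ap M s t (M s t + M s t) = 1 := by
    rw [← two_mul, ap_two_mul, h]
  have key : ∀ n k, ap M s t (n + k) = ap M s t n * ap M (tp s t n) (tp t s n) k := by
    intro n k
    induction k with
    | zero => simp [ap]
    | succ k ih =>
      rw [← Nat.add_assoc, ap_succ', ap_succ', ih, mul_assoc, tp_add]
  rw [key] at h1
  have h2 := ap_inv (M := M) t s (M s t)
  have h3 : (ap M s t (M s t))⁻¹ = ap M (tp s t (M s t)) (tp t s (M s t)) (M s t) :=
    inv_eq_of_mul_eq_one_right h1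
  rw [← h3] at h2
  exact (mul_inv_eq_one.1 h2).symm

end

/-! ### Words -/

section

variable {S C : Type}

/-- The end of a word which begins at `v`. The head of the list is the last letter. -/
def en (v : C) : List (S × C) → C
  | [] => v
  | x :: _ => x.2

/-- The product of the types. -/
def wt (M : CoxeterMatrix S) : List (S × C) → M.Group
  | [] => 1
  | x :: l => wt M l * M.simple x.1

theorem en_append (v : C) (L β : List (S × C)) : en v (L ++ β) = en (en v β) L := by
  cases L with
  | nil => rfl
  | cons x L => rfl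

theorem wt_append (M : CoxeterMatrix S) (L β : List (S × C)) :
    wt M (L ++ β) = wt M β * wt M L := by
  induction L with
  | nil => simp [wt]
  | cons x L ih => rw [List.cons_append, wt, ih, wt, mul_assoc]

theorem len_wt_le (M : CoxeterMatrix S) (l : List (S × C)) : len M (wt M l) ≤ l.length := by
  induction l with
  | nil =>
    rw [wt, len_one]
    exact Nat.zero_le _
  | cons x l ih =>
    rw [wt, List.length_cons]
    rcases len_mul (wt M l) x.1 with h | h <;> omega

variable (A : S → C → C → Prop)

/-- Galleries without stuttering. -/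
inductive Gal (v : C) : List (S × C) → Prop
  | nil : Gal v []
  | cons {s : S} {c : C} {l : List (S × C)} : Gal v l → A s (en v l) c → en v l ≠ c →
      Gal v ((s, c) :: l)

/-- Blocks: alternating galleries with `n` letters which begin at `e`, the last type is `s`. -/
inductive Bk : S → S → ℕ → C → List (S × C) → Prop
  | nil (s t : S) (e : C) : Bk s t 0 e []
  | cons {s t : S} {n : ℕ} {e c : C} {L : List (S × C)} : Bk t s n e L → A s (en e L) c →
      en e L ≠ c → Bk s t (n + 1) e ((s, c) :: L)

variable {A}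

theorem gal_append {v : C} {L β : List (S × C)} :
    Gal A v (L ++ β) ↔ Gal A v β ∧ Gal A (en v β) L := by
  induction L with
  | nil => exact ⟨fun h => ⟨h, Gal.nil⟩, fun h => h.1⟩
  | cons x L ih =>
    obtain ⟨s, c⟩ := x
    rw [List.cons_append]
    constructor
    · intro h
      cases h with
      | cons h1 h2 h3 =>
        have h4 := ih.1 h1
        rw [en_append] at h2 h3
        exact ⟨h4.1, Gal.cons h4.2 h2 h3⟩
    · rintro ⟨h1, h2⟩
      cases h2 with
      | cons h3 h4 h5 =>
        refine Gal.cons (ih.2 ⟨h1, h3⟩) ?_ ?_ <;> rw [en_append] <;> assumption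

theorem Bk.length {s t : S} {n : ℕ} {e : C} {L : List (S × C)} (h : Bk A s t n e L) :
    L.length = n := by
  induction h with
  | nil => rfl
  | cons _ _ _ ih => rw [List.length_cons, ih]

theorem Bk.gal {s t : S} {n : ℕ} {e : C} {L : List (S × C)} (h : Bk A s t n e L) :
    Gal A e L := by
  induction h with
  | nil => exact Gal.nil
  | cons _ h1 h2 ih => exact Gal.cons ih h1 h2

theorem Bk.wt (M : CoxeterMatrix S) {s t : S} {n : ℕ} {e : C} {L : List (S × C)}
    (h : Bk A s t n e L) : wt M L = ap M (tp t s n) (tp s t n) n := by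
  induction h with
  | nil => rfl
  | @cons s t n e c L _ _ _ ih =>
    rw [TD.wt, ih, tp_succ, tp_succ, ap_succ', tp_add]
    have : tp s t (n + n) = s := tp_even ⟨n, rfl⟩
    rw [this]

theorem Bk.al {s t : S} {n : ℕ} {e : C} {L : List (S × C)} (h : Bk A s t n e L) :
    Al A (tp t s n) (tp s t n) n e (en e L) := by
  induction h with
  | nil => exact Al.nil _ _ _
  | @cons s t n e c L _ h1 h2 ih =>
    rw [tp_succ, tp_succ]
    refine ih.snoc ?_ h2
    rw [tp_add]
    have : tp s t (n + n) = s := tp_even ⟨n, rfl⟩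
    rw [this]
    exact h1

theorem exists_bk {x y : S} {n : ℕ} {e c : C} (h : Al A x y n e c) :
    ∃ L, Bk A (tp y x n) (tp x y n) n e L ∧ en e L = c := by
  induction n generalizing c with
  | zero =>
    obtain rfl := h.zero
    exact ⟨[], Bk.nil _ _ _, rfl⟩
  | succ n ih =>
    obtain ⟨d, h1, h2, h3⟩ := h.last
    obtain ⟨L, h4, rfl⟩ := ih h1
    exact ⟨(tp x y n, c) :: L, Bk.cons h4 h2 h3, rfl⟩

/-- Adding a letter at the bottom of a block. -/
theorem Bk.bottom {s t : S} {n : ℕ} {e d : C} {L : List (S × C)} (h : Bk A s t n d L)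
    (h1 : A (tp s t n) e d) (h2 : e ≠ d) : Bk A s t (n + 1) e (L ++ [(tp s t n, d)]) := by
  induction h with
  | nil => exact Bk.cons (Bk.nil _ _ _) h1 h2
  | @cons s t n d c L _ h3 h4 ih =>
    rw [List.cons_append]
    refine Bk.cons (ih h1 h2) ?_ ?_ <;> rw [en_append] <;> assumption

/-- The blocks of the words. -/
theorem Bk.head {s t : S} {n : ℕ} {e : C} {L : List (S × C)} (h : Bk A s t (n + 1) e L) :
    ∃ c L', L = (s, c) :: L' ∧ Bk A t s n e L' ∧ A s (en e L') c ∧ en e L' ≠ c := by
  cases h with
  | cons h1 h2 h3 => exact ⟨_, _, rfl, h1, h2, h3⟩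

variable {M : CoxeterMatrix S} (hA : ∀ s, Equivalence (A s)) (hG : Gir M A) (hP : Swp M A)

include hA hG in
/-- Uniqueness of blocks. -/
theorem Bk.uniq {s t : S} (hst : s ≠ t) {n : ℕ} {e : C} {L L' : List (S × C)}
    (h : Bk A s t n e L) (h' : Bk A s t n e L') (hn : n ≤ M s t) (he : en e L = en e L') :
    L = L' := by
  induction n generalizing s t L L' with
  | zero =>
    cases h
    cases h'
    rfl
  | succ n ih =>
    obtain ⟨c, L, rfl, h1, h2, h3⟩ := h.head
    obtain ⟨c', L', rfl, h1', h2', h3'⟩ := h'.head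
    obtain rfl : c = c' := he
    by_cases hd : en e L = en e L'
    · rw [ih hst.symm h1 h1' (by rw [M.symmetric t s]; omega) hd]
    · exfalso
      have a1 := h1.al
      have a2 := h1'.al
      have a6 : tp s t (n + n) = s := tp_even ⟨n, rfl⟩
      have a3 : Al A (tp s t n) (tp t s n) (n + 1) e (en e L') := a1.snoc (by
        rw [tp_add, a6]
        exact (hA s).trans h2 ((hA s).symm h2')) hd
      have a4 := two_eq (A := A) (fun s _ _ h => (hA s).symm h)
        (fun s _ _ _ h h' => (hA s).trans h h') hG (tp_ne hst n) a2 a3 (Nat.ne_of_lt (Nat.lt_succ_self n))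
      have a5 : M (tp s t n) (tp t s n) = M s t := by
        rcases tp_cases s t n with ⟨b1, b2⟩ | ⟨b1, b2⟩
        · rw [b1, b2]
        · rw [b1, b2, M.symmetric]
      omega

include hP in
/-- Swapping of blocks. -/
theorem Bk.swap {s t : S} (hst : s ≠ t) (hm : M s t ≠ 0) {e : C} {L : List (S × C)}
    (h : Bk A s t (M s t) e L) : ∃ L', Bk A t s (M s t) e L' ∧ en e L' = en e L := by
  have a1 := h.al
  have a5 : M (tp t s (M s t)) (tp s t (M s t)) = M s t := by
    rcases tp_cases s t (M s t) with ⟨b1, b2⟩ | ⟨b1, b2⟩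
    · rw [b1, b2, M.symmetric]
    · rw [b1, b2]
  have a2 := hP (tp t s (M s t)) (tp s t (M s t)) e (en e L) (tp_ne hst.symm _)
    (by rw [a5]; exact hm) (by rw [a5]; exact a1)
  rw [a5] at a2
  obtain ⟨L', a3, a4⟩ := exists_bk a2
  rw [tp_add, tp_add, tp_even ⟨M s t, rfl⟩, tp_even ⟨M s t, rfl⟩] at a3
  exact ⟨L', a3, a4⟩

/-! ### Swaps -/

variable (M A)

/-- Swaps of words. -/
inductive Sw (v : C) : List (S × C) → List (S × C) → Prop
  | here {s t : S} {β L L' : List (S × C)} : s ≠ t → M s t ≠ 0 →
      Bk A s t (M s t) (en v β) L → Bk A t s (M s t) (en v β) L' →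
      en (en v β) L = en (en v β) L' → Sw v (L ++ β) (L' ++ β)
  | cons {x : S × C} {l l' : List (S × C)} : Sw v l l' → Sw v (x :: l) (x :: l')

/-- Equivalence of words. -/
abbrev E (v : C) : List (S × C) → List (S × C) → Prop := ReflTransGen (Sw A M v)

/-- Good words: galleries of reduced type. -/
def Gd (v : C) (l : List (S × C)) : Prop := Gal A v l ∧ len M (wt M l) = l.length

variable {M A}
variable {v : C}

theorem Sw.symm {l l' : List (S × C)} (h : Sw A M v l l') : Sw A M v l' l := by
  induction h with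
  | here h1 h2 h3 h4 h5 =>
    refine Sw.here h1.symm ?_ ?_ ?_ h5.symm <;> rw [M.symmetric] <;> assumption
  | cons _ ih => exact Sw.cons ih

theorem E.symm {l l' : List (S × C)} (h : E A M v l l') : E A M v l' l := by
  induction h with
  | refl => exact ReflTransGen.refl
  | tail _ h2 ih => exact ih.head h2.symm

theorem E.cons (x : S × C) {l l' : List (S × C)} (h : E A M v l l') :
    E A M v (x :: l) (x :: l') := by
  induction h with
  | refl => exact ReflTransGen.refl
  | tail _ h2 ih => exact ih.tail (Sw.cons h2)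

theorem E.append (L : List (S × C)) {l l' : List (S × C)} (h : E A M v l l') :
    E A M v (L ++ l) (L ++ l') := by
  induction L with
  | nil => exact h
  | cons x L ih => exact ih.cons x

/-- All invariants of a swap. -/
theorem Sw.inv {l l' : List (S × C)} (h : Sw A M v l l') : l.length = l'.length ∧
    wt M l = wt M l' ∧ en v l = en v l' ∧ (Gal A v l → Gal A v l') := by
  induction h with
  | @here s t β L L' h1 h2 h3 h4 h5 =>
    refine ⟨?_, ?_, ?_, ?_⟩
    · rw [List.length_append, List.length_append, h3.length, h4.length]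
    · rw [wt_append, wt_append, h3.wt, h4.wt]
      congr 1
      rcases tp_cases s t (M s t) with ⟨b1, b2⟩ | ⟨b1, b2⟩
      · rw [b1, b2]
        exact (braid s t).symm
      · rw [b1, b2]
        exact braid s t
    · rw [en_append, en_append, h5]
    · intro h
      exact gal_append.2 ⟨(gal_append.1 h).1, h4.gal⟩
  | @cons x l l' _ ih =>
    obtain ⟨h1, h2, h3, h4⟩ := ih
    refine ⟨?_, ?_, rfl, ?_⟩
    · rw [List.length_cons, List.length_cons, h1]
    · rw [wt, wt, h2]
    · intro h
      cases h with
      | cons h5 h6 h7 =>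
        rw [h3] at h6 h7
        exact Gal.cons (h4 h5) h6 h7

theorem E.inv {l l' : List (S × C)} (h : E A M v l l') : l.length = l'.length ∧
    wt M l = wt M l' ∧ en v l = en v l' ∧ (Gal A v l → Gal A v l') := by
  induction h with
  | refl => exact ⟨rfl, rfl, rfl, id⟩
  | tail _ h2 ih =>
    obtain ⟨a1, a2, a3, a4⟩ := ih
    obtain ⟨b1, b2, b3, b4⟩ := h2.inv
    exact ⟨a1.trans b1, a2.trans b2, a3.trans b3, fun h => b4 (a4 h)⟩

theorem E.gd {l l' : List (S × C)} (h : E A M v l l') (hl : Gd A M v l) : Gd A M v l' := by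
  obtain ⟨h1, h2, -, h4⟩ := h.inv
  exact ⟨h4 hl.1, by rw [← h2, ← h1]; exact hl.2⟩

theorem Gd.tail {x : S × C} {l : List (S × C)} (h : Gd A M v (x :: l)) : Gd A M v l := by
  obtain ⟨s, c⟩ := x
  obtain ⟨h1, h2⟩ := h
  cases h1 with
  | cons h3 _ _ =>
    refine ⟨h3, ?_⟩
    have := len_wt_le M l
    rw [wt, List.length_cons] at h2
    rcases len_mul (wt M l) s with h | h
    · have h4 : len M (wt M l) + 1 = l.length + 1 := h.symm.trans h2
      omega
    · have h4 : len M (wt M l * M.simple s) = l.length + 1 := h2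
      omega

theorem Gd.not_ds {x : S × C} {l : List (S × C)} (h : Gd A M v (x :: l)) :
    ¬ Ds M (wt M l) x.1 := by
  rw [TD.not_ds, h.tail.2]
  exact h.2

theorem Gd.ds {x : S × C} {l : List (S × C)} (h : Gd A M v (x :: l)) :
    Ds M (wt M (x :: l)) x.1 := ds_mul h.not_ds

theorem Gd.step {s : S} {c : C} {l : List (S × C)} (h : Gd A M v ((s, c) :: l)) :
    A s (en v l) c ∧ en v l ≠ c := by
  obtain ⟨h1, -⟩ := h
  cases h1 with
  | cons _ h2 h3 => exact ⟨h2, h3⟩

theorem Gd.cons {s : S} {c : C} {l : List (S × C)} (h : Gd A M v l) (h1 : A s (en v l) c)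
    (h2 : en v l ≠ c) (h3 : ¬ Ds M (wt M l) s) : Gd A M v ((s, c) :: l) := by
  refine ⟨Gal.cons h.1 h1 h2, ?_⟩
  rw [wt, TD.not_ds.1 h3, h.2]
  rfl

theorem Gd.of_append {L β : List (S × C)} (h : Gd A M v (L ++ β)) : Gd A M v β := by
  induction L with
  | nil => exact h
  | cons x L ih => exact ih h.tail

theorem gd_nil : Gd A M v [] := ⟨Gal.nil, len_one⟩

end

end Pool.Agent.Helper9.TD
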